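import Mathlib

set_option autoImplicit false

namespace Pool.Agent.H.MP_35e7b7_an
open Filter Topology Metric Set Complex Bornology

structure Mer (g : ℂ → ℂ) (P : Set ℂ) : Prop where
  an : ∀ z, z ∉ P → AnalyticAt ℂ g z
  cl : IsClosed P
  iso : ∀ z ∈ P, ∀ᶠ w in 𝓝[≠] z, w ∉ P
  pole : ∀ z ∈ P, ∀ L : ℝ, ∀ᶠ w in 𝓝[≠] z, L ≤ ‖g w‖

open Classical in
noncomputable def iv (g : ℂ → ℂ) (P : Set ℂ) (c : ℂ) (z : ℂ) : ℂ :=
  if z ∈ P then 0 else (g z - c)⁻¹

variable {g : ℂ → ℂ} {P : Set ℂ}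

lemma iv_of_mem {c z : ℂ} (h : z ∈ P) : iv g P c z = 0 := by simp [iv, h]
lemma iv_of_not {c z : ℂ} (h : z ∉ P) : iv g P c z = (g z - c)⁻¹ := by simp [iv, h]

lemma Mer.nb (hg : Mer g P) {z : ℂ} (h : z ∉ P) : ∀ᶠ w in 𝓝 z, w ∉ P :=
  hg.cl.isOpen_compl.mem_nhds h

lemma Mer.nb' (hg : Mer g P) (z : ℂ) : ∀ᶠ w in 𝓝[≠] z, w ∉ P := by
  by_cases h : z ∈ P
  · exact hg.iso z h
  · exact (hg.nb h).filter_mono nhdsWithin_le_nhds

lemma Mer.iv_ev (hg : Mer g P) (c : ℂ) {z : ℂ} (h : z ∉ P) :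
    iv g P c =ᶠ[𝓝 z] fun w => (g w - c)⁻¹ :=
  (hg.nb h).mono fun _ hw => iv_of_not hw

lemma Mer.iv_an1 (hg : Mer g P) {c z : ℂ} (h : z ∉ P) (hc : g z ≠ c) : AnalyticAt ℂ (iv g P c) z :=
  (((hg.an z h).sub analyticAt_const).inv (sub_ne_zero.2 hc)).congr (hg.iv_ev c h).symm

lemma Mer.far (hg : Mer g P) (c : ℂ) {z : ℂ} (h : z ∈ P) (L : ℝ) :
    ∀ᶠ w in 𝓝[≠] z, w ∉ P ∧ L ≤ ‖g w - c‖ := by
  filter_upwards [hg.iso z h, hg.pole z h (L + ‖c‖)] with w h1 h2
  exact ⟨h1, by linarith [norm_sub_norm_le (g w) c]⟩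

lemma Mer.iv_an (hg : Mer g P) {c z : ℂ} (h : z ∈ P ∨ g z ≠ c) : AnalyticAt ℂ (iv g P c) z := by
  by_cases hz : z ∈ P
  · refine analyticAt_of_differentiable_on_punctured_nhds_of_continuousAt ?_ ?_
    · filter_upwards [hg.far c hz 1] with w hw
      refine (hg.iv_an1 hw.1 fun e => ?_).differentiableAt
      have := hw.2
      rw [e, sub_self, norm_zero] at this
      linarith
    · rw [← continuousWithinAt_compl_self, ContinuousWithinAt, iv_of_mem hz,
        NormedAddGroup.tendsto_nhds_zero]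
      intro ε hε
      filter_upwards [hg.far c hz (2 / ε)] with w hw
      rw [iv_of_not hw.1, norm_inv]
      have h2 : 0 < 2 / ε := by positivity
      calc ‖g w - c‖⁻¹ ≤ (2 / ε)⁻¹ := inv_anti₀ h2 hw.2
        _ = ε / 2 := by rw [inv_div]
        _ < ε := by linarith
  · exact hg.iv_an1 hz (h.resolve_left hz)

lemma Mer.iv_deriv (hg : Mer g P) {c z : ℂ} (h : z ∉ P) (hc : g z ≠ c) :
    deriv (iv g P c) z = -deriv g z / (g z - c) ^ 2 := by
  rw [(hg.iv_ev c h).deriv_eq]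
  have := (((hg.an z h).differentiableAt.hasDerivAt.sub_const c).inv (sub_ne_zero.2 hc)).deriv
  exact this

lemma rem {φ : ℂ → ℂ} {E : Set ℂ} (h1 : ∀ z, z ∉ E → AnalyticAt ℂ φ z)
    (h2 : ∀ z ∈ E, ∀ᶠ w in 𝓝[≠] z, w ∉ E) (h3 : ∀ z ∈ E, ∃ C, ∀ᶠ w in 𝓝[≠] z, ‖φ w‖ ≤ C) :
    ∃ Φ : ℂ → ℂ, Differentiable ℂ Φ ∧ ∀ z, z ∉ E → Φ z = φ z := by
  classical
  have ht : ∀ z, Tendsto φ (𝓝[≠] z) (𝓝 (limUnder (𝓝[≠] z) φ)) := by
    intro z
    by_cases hz : z ∈ E
    · obtain ⟨C, hC⟩ := h3 z hz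
      refine tendsto_limUnder_of_differentiable_on_punctured_nhds_of_bounded_under
        ((h2 z hz).mono fun w hw => (h1 w hw).differentiableAt) ?_
      refine ⟨C + ‖φ z‖, ?_⟩
      rw [eventually_map]
      filter_upwards [hC] with w hw
      linarith [norm_sub_le (φ w) (φ z)]
    · have := (h1 z hz).continuousAt.tendsto.mono_left (nhdsWithin_le_nhds (s := {z}ᶜ))
      rw [this.limUnder_eq]; exact this
  have he : ∀ z, ContinuousAt φ z → limUnder (𝓝[≠] z) φ = φ z := fun z hz =>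
    (hz.tendsto.mono_left (nhdsWithin_le_nhds (s := {z}ᶜ))).limUnder_eq
  have hn : ∀ z, z ∉ E → (fun z => limUnder (𝓝[≠] z) φ) =ᶠ[𝓝 z] φ := fun z hz =>
    (h1 z hz).eventually_analyticAt.mono fun w hw => he w hw.continuousAt
  refine ⟨fun z => limUnder (𝓝[≠] z) φ, fun z => ?_, fun z hz => he z (h1 z hz).continuousAt⟩
  by_cases hz : z ∈ E
  · refine (analyticAt_of_differentiable_on_punctured_nhds_of_continuousAt ?_ ?_).differentiableAt
    · exact (h2 z hz).mono fun w hw => (h1 w hw).differentiableAt.congr_of_eventuallyEq (hn w hw)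
    · rw [← continuousWithinAt_compl_self, ContinuousWithinAt]
      refine (ht z).congr' ?_
      exact (h2 z hz).mono fun w hw => (he w (h1 w hw).continuousAt).symm
  · exact (h1 z hz).differentiableAt.congr_of_eventuallyEq (hn z hz)

lemma Mer.idn (hg : Mer g P) {c z0 : ℂ} (h0 : z0 ∉ P) (hc : g z0 ≠ c) (z : ℂ) :
    ∀ᶠ w in 𝓝[≠] z, w ∉ P ∧ g w ≠ c := by
  have hZ : IsClopen {z : ℂ | ∀ᶠ w in 𝓝 z, w ∉ P ∧ g w = c} := by
    refine ⟨isClosed_iff_clusterPt.2 fun x hx => ?_, isOpen_setOf_eventually_nhds⟩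
    have hfr : ∃ᶠ w in 𝓝[≠] x, w ∉ P ∧ g w = c := by
      rw [clusterPt_principal_iff_frequently] at hx
      intro hne
      have h3 : ∀ᶠ y in 𝓝 x, ∀ᶠ w in 𝓝 y, w ≠ x → ¬(w ∉ P ∧ g w = c) :=
        (eventually_nhdsWithin_iff.1 hne).eventually_nhds
      obtain ⟨y, hy1, hy2⟩ := (hx.and_eventually h3).exists
      have h4 : ∀ᶠ w in 𝓝[≠] y, w ≠ x := by
        by_cases e : y = x
        · rw [e]; exact self_mem_nhdsWithin
        · exact mem_nhdsWithin_of_mem_nhds (isOpen_ne.mem_nhds e)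
      obtain ⟨w, hw1, hw2, hw3⟩ := (h4.and ((hy2.and hy1).filter_mono nhdsWithin_le_nhds)).exists
      exact hw2 hw1 hw3
    by_cases hP : x ∈ P
    · obtain ⟨w, hw1, hw2⟩ := (hfr.and_eventually (hg.far c hP 1)).exists
      have := hw2.2
      rw [hw1.2, sub_self, norm_zero] at this
      linarith
    · have := ((hg.an x hP).frequently_eq_iff_eventually_eq analyticAt_const).1
        (hfr.mono fun w hw => hw.2)
      exact (hg.nb hP).and this
  have hE : ∀ x : ℂ, ¬ ∀ᶠ w in 𝓝 x, w ∉ P ∧ g w = c := by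
    rcases isClopen_iff.1 hZ with e | e
    · intro x hx
      have : x ∈ {z : ℂ | ∀ᶠ w in 𝓝 z, w ∉ P ∧ g w = c} := hx
      rw [e] at this; exact this
    · have : z0 ∈ {z : ℂ | ∀ᶠ w in 𝓝 z, w ∉ P ∧ g w = c} := by rw [e]; trivial
      exact absurd (Eventually.self_of_nhds this).2 hc
  by_cases hP : z ∈ P
  · filter_upwards [hg.far c hP 1] with w hw
    refine ⟨hw.1, fun e => ?_⟩
    have := hw.2
    rw [e, sub_self, norm_zero] at this
    linarith
  · rcases (hg.an z hP).eventually_eq_or_eventually_ne (analyticAt_const (v := c)) with h | h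
    · exact absurd ((hg.nb hP).and h) (hE z)
    · exact (hg.nb' z).and h

lemma quo0 {k : ℂ → ℂ} {z : ℂ} (hk : AnalyticAt ℂ k z) (h0 : k z = 0)
    (hn : ∀ᶠ w in 𝓝[≠] z, k w ≠ 0) :
    (∀ᶠ w in 𝓝[≠] z, deriv k w ≠ 0) ∧ Tendsto (fun w => k w / deriv k w) (𝓝[≠] z) (𝓝 0) := by
  have hne : ¬ ∀ᶠ w in 𝓝 z, k w = 0 := fun h => by
    obtain ⟨w, h1, h2⟩ := (hn.and (h.filter_mono nhdsWithin_le_nhds)).exists
    exact h1 h2
  obtain ⟨m, q, hq, hq0, he⟩ := hk.exists_eventuallyEq_pow_smul_nonzero_iff.2 hne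
  obtain ⟨n, rfl⟩ : ∃ n, m = n + 1 := by
    rcases m with _ | n
    · have := he.self_of_nhds
      rw [h0] at this
      simp at this
      exact absurd this.symm hq0
    · exact ⟨n, rfl⟩
  have hd : ∀ᶠ w in 𝓝 z, deriv k w = (w - z) ^ n * ((n + 1) * q w + (w - z) * deriv q w) := by
    filter_upwards [he.eventually_nhds, hq.eventually_analyticAt] with w h1 h2
    have h1' : k =ᶠ[𝓝 w] fun w => (w - z) ^ (n + 1) * q w := h1
    rw [h1'.deriv_eq]
    have := ((((hasDerivAt_id w).sub_const z).pow (n + 1)).mul h2.differentiableAt.hasDerivAt).deriv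
    refine Eq.trans this ?_
    simp
    ring
  have hc : ContinuousAt (fun w => ((n:ℂ) + 1) * q w + (w - z) * deriv q w) z := by
    have a1 := hq.continuousAt
    have a2 := hq.deriv.continuousAt
    fun_prop
  have hv : ((n:ℂ) + 1) * q z + (z - z) * deriv q z ≠ 0 := by
    rw [sub_self, zero_mul, add_zero]
    exact mul_ne_zero (by exact_mod_cast Nat.succ_ne_zero n) hq0
  have hv' := hc.eventually_ne hv
  have hs : ∀ᶠ w in 𝓝[≠] z, w - z ≠ 0 := eventually_mem_nhdsWithin.mono fun w hw => sub_ne_zero.2 hw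
  refine ⟨?_, ?_⟩
  · filter_upwards [hs, (hd.and hv').filter_mono nhdsWithin_le_nhds] with w h1 h2
    rw [h2.1]; exact mul_ne_zero (pow_ne_zero _ h1) h2.2
  · have hc2 : ContinuousAt (fun w => (w - z) * q w / (((n:ℂ) + 1) * q w + (w - z) * deriv q w)) z :=
      ContinuousAt.div (by have := hq.continuousAt; fun_prop) hc hv
    have ht := hc2.tendsto.mono_left (nhdsWithin_le_nhds (s := {z}ᶜ))
    simp only [sub_self, zero_mul, zero_div] at ht
    refine ht.congr' ?_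
    filter_upwards [hs, ((hd.and hv').and he).filter_mono nhdsWithin_le_nhds] with w h1 h2
    rw [h2.1.1, h2.2, smul_eq_mul]
    have := h2.1.2
    field_simp
    ring

lemma Mer.quo (hg : Mer g P) {z : ℂ} (hz : z ∈ P) :
    (∀ᶠ w in 𝓝[≠] z, deriv g w ≠ 0) ∧ Tendsto (fun w => g w / deriv g w) (𝓝[≠] z) (𝓝 0) := by
  have hf : ∀ᶠ w in 𝓝[≠] z, w ∉ P ∧ g w ≠ 0 := by
    filter_upwards [hg.far 0 hz 1] with w hw
    refine ⟨hw.1, fun e => ?_⟩
    have := hw.2
    rw [e, sub_self, norm_zero] at this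
    linarith
  obtain ⟨h1, h2⟩ := quo0 (hg.iv_an (c := 0) (Or.inl hz)) (iv_of_mem hz)
    (hf.mono fun w hw => by rw [iv_of_not hw.1, sub_zero]; exact inv_ne_zero hw.2)
  have h3 : ∀ᶠ w in 𝓝[≠] z, deriv g w ≠ 0 := by
    filter_upwards [hf, h1] with w hw hd e
    rw [hg.iv_deriv hw.1 hw.2, e] at hd
    simp at hd
  refine ⟨h3, ?_⟩
  have h4 := h2.neg
  rw [neg_zero] at h4
  refine h4.congr' ?_
  filter_upwards [hf, h3] with w hw hd
  rw [hg.iv_deriv hw.1 hw.2, iv_of_not hw.1, sub_zero]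
  have := hw.2
  field_simp

lemma Mer.der (hg : Mer g P) : Mer (deriv g) P := by
  refine ⟨fun z hz => (hg.an z hz).deriv, hg.cl, hg.iso, fun z hz L => ?_⟩
  obtain ⟨h1, h2⟩ := hg.quo hz
  have h3 := (NormedAddGroup.tendsto_nhds_zero.1 h2) 1 one_pos
  filter_upwards [h1, h3, hg.pole z hz L] with w a1 a2 a3
  rw [norm_div, div_lt_one (norm_pos_iff.2 a1)] at a2
  linarith

lemma Mer.stay (hg : Mer g P) {c z0 : ℂ} {δ M ρ : ℝ} (hM : 0 ≤ M) (h0 : z0 ∉ P)
    (hd : ∀ w ∈ ball z0 ρ, w ∉ P → ‖g w - c‖ < δ → ‖deriv g w‖ ≤ M)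
    (hz : ‖g z0 - c‖ + M * ρ < δ) : ∀ w ∈ ball z0 ρ, w ∉ P ∧ ‖g w - c‖ < δ := by
  by_cases hρ : ρ ≤ 0
  · intro w hw
    rw [ball_eq_empty.2 hρ] at hw
    exact absurd hw (notMem_empty w)
  push Not at hρ
  obtain ⟨W, hW⟩ : ∃ W, W = {w | w ∉ P ∧ ‖g w - c‖ < δ} := ⟨_, rfl⟩
  have hWo : IsOpen W := by
    rw [hW, isOpen_iff_mem_nhds]
    intro w hw
    have a1 : ContinuousAt (fun w => ‖g w - c‖) w := by
      have := (hg.an w hw.1).continuousAt
      fun_prop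
    exact (hg.nb hw.1).and (a1.eventually (gt_mem_nhds hw.2))
  obtain ⟨S, hS⟩ : ∃ S, S = {t : ℝ | 0 ≤ t ∧ t ≤ ρ ∧ ball z0 t ⊆ W} := ⟨_, rfl⟩
  have hS0 : (0:ℝ) ∈ S := by rw [hS]; exact ⟨le_rfl, hρ.le, by simp⟩
  have hSb : BddAbove S := ⟨ρ, fun t ht => by rw [hS] at ht; exact ht.2.1⟩
  obtain ⟨t, ht⟩ : ∃ t, t = sSup S := ⟨_, rfl⟩
  have t0 : 0 ≤ t := ht ▸ le_csSup hSb hS0
  have t1 : t ≤ ρ := ht ▸ csSup_le ⟨0, hS0⟩ fun s hs => by rw [hS] at hs; exact hs.2.1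
  have tW : ball z0 t ⊆ W := by
    intro w hw
    rw [mem_ball, ht] at hw
    obtain ⟨s, hs, hws⟩ := exists_lt_of_lt_csSup ⟨0, hS0⟩ hw
    rw [hS] at hs
    exact hs.2.2 hws
  have hb : ∀ w ∈ ball z0 t, ‖g w - c‖ ≤ ‖g z0 - c‖ + M * ρ := by
    intro w hw
    have a1 := (convex_ball z0 t).norm_image_sub_le_of_norm_deriv_le (f := g) (C := M)
      (fun x hx => (hg.an x (hW ▸ tW hx).1).differentiableAt)
      (fun x hx => hd x (ball_subset_ball t1 hx) (hW ▸ tW hx).1 (hW ▸ tW hx).2)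
      (mem_ball_self (pos_of_mem_ball hw)) hw
    have a2 : ‖w - z0‖ ≤ ρ := by
      have := mem_ball_iff_norm.1 hw
      linarith
    have a3 := norm_sub_le_norm_sub_add_norm_sub (g w) (g z0) c
    nlinarith
  have hcb : closedBall z0 t ⊆ W := by
    intro w hw
    rcases t0.eq_or_lt with e | e
    · rw [← e, closedBall_zero, mem_singleton_iff] at hw
      rw [hw, hW]
      exact ⟨h0, by nlinarith⟩
    · have hfr : ∃ᶠ y in 𝓝 w, y ∈ ball z0 t := by
        rw [← closure_ball z0 e.ne'] at hw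
        exact mem_closure_iff_frequently.1 hw
      have hP : w ∉ P := by
        intro hP
        obtain ⟨y, h1, h2⟩ := (hfr.and_eventually (eventually_nhdsWithin_iff.1 (hg.far c hP δ))).exists
        by_cases e' : y = w
        · exact (hW ▸ tW h1).1 (e' ▸ hP)
        · exact absurd (hW ▸ tW h1).2 (not_lt.2 (h2 e').2)
      rw [hW]
      refine ⟨hP, lt_of_le_of_lt ?_ hz⟩
      have a1 : ContinuousAt (fun w => ‖g w - c‖) w := by
        have := (hg.an w hP).continuousAt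
        fun_prop
      exact isClosed_Iic.mem_of_frequently_of_tendsto (hfr.mono fun y hy => hb y hy) a1.tendsto
  have : ρ ≤ t := by
    by_contra hlt
    push Not at hlt
    obtain ⟨ε, hε, hth⟩ := (isCompact_closedBall z0 t).exists_thickening_subset_open hWo hcb
    rw [thickening_closedBall hε t0] at hth
    have : min ρ (ε + t) ∈ S := by
      rw [hS]
      exact ⟨le_min hρ.le (by linarith), min_le_left _ _,
        (ball_subset_ball (min_le_right _ _)).trans hth⟩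
    have h2 := le_csSup hSb this
    rw [← ht] at h2
    rcases min_le_iff.1 h2 with h | h <;> linarith
  intro w hw
  have h5 := tW (ball_subset_ball this hw)
  rw [hW] at h5
  exact h5

lemma pgr (n : ℕ) : ∀ (Φ : ℂ → ℂ), Differentiable ℂ Φ → ∀ C R : ℝ,
    (∀ z, R ≤ ‖z‖ → ‖Φ z‖ ≤ C * ‖z‖ ^ n) →
    ∃ p : Polynomial ℂ, p.natDegree ≤ n ∧ ∀ z, Φ z = p.eval z := by
  induction n with
  | zero =>
    intro Φ hΦ C R h
    obtain ⟨B, hB⟩ := (isCompact_closedBall (0:ℂ) R).exists_bound_of_continuousOn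
      hΦ.continuous.continuousOn
    obtain ⟨c, hc⟩ := hΦ.exists_const_forall_eq_of_bounded (by
      refine isBounded_iff_forall_norm_le.2 ⟨max B C, ?_⟩
      rintro _ ⟨z, rfl⟩
      by_cases hz : R ≤ ‖z‖
      · exact le_max_of_le_right (by simpa using h z hz)
      · exact le_max_of_le_left (hB z (by rw [mem_closedBall_zero_iff]; linarith)))
    exact ⟨Polynomial.C c, by simp, by simpa using hc⟩
  | succ n ih =>
    intro Φ hΦ C R h
    have hd : Differentiable ℂ (dslope Φ 0) :=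
      differentiableOn_univ.1 ((differentiableOn_dslope univ_mem).2 hΦ.differentiableOn)
    obtain ⟨p, hp, he⟩ := ih (dslope Φ 0) hd (C + ‖Φ 0‖) (max R 1) (fun z hz => by
      have z1 : 1 ≤ ‖z‖ := le_of_max_le_right hz
      have z0 : z ≠ 0 := by rintro rfl; simp at z1; linarith
      rw [dslope_of_ne _ z0, slope_def_field, sub_zero, norm_div, div_le_iff₀ (by linarith)]
      have a1 := h z (le_of_max_le_left hz)
      have a2 := norm_sub_le (Φ z) (Φ 0)
      have a3 : 1 ≤ ‖z‖ ^ (n + 1) := one_le_pow₀ z1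
      have a4 := mul_le_mul_of_nonneg_left a3 (norm_nonneg (Φ 0))
      rw [mul_assoc, ← pow_succ]
      linarith)
    refine ⟨Polynomial.C (Φ 0) + Polynomial.X * p, ?_, fun z => ?_⟩
    · refine (Polynomial.natDegree_add_le _ _).trans (max_le (by simp) ?_)
      refine Polynomial.natDegree_mul_le.trans ?_
      have := Polynomial.natDegree_X_le (R := ℂ)
      omega
    · have := sub_smul_dslope Φ 0 z
      rw [he, sub_zero, smul_eq_mul] at this
      simp [this]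

lemma Mer.dense (hg : Mer g P) {z0 : ℂ} (h0 : z0 ∉ P) (hd : deriv g z0 ≠ 0) (v : ℂ) {ε : ℝ}
    (hε : 0 < ε) : ∃ z, z ∉ P ∧ ‖g z - v‖ < ε := by
  by_contra hn
  push Not at hn
  have hne : ∀ z, z ∉ P → g z ≠ v := fun z hz e => by
    have := hn z hz
    rw [e, sub_self, norm_zero] at this
    linarith
  have hD : Differentiable ℂ (iv g P v) := fun z =>
    (hg.iv_an (by by_cases h : z ∈ P; exacts [Or.inl h, Or.inr (hne z h)])).differentiableAt
  obtain ⟨c, hc⟩ := hD.exists_eq_const_of_bounded (by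
    refine isBounded_iff_forall_norm_le.2 ⟨ε⁻¹, ?_⟩
    rintro _ ⟨z, rfl⟩
    by_cases h : z ∈ P
    · rw [iv_of_mem h, norm_zero]; positivity
    · rw [iv_of_not h, norm_inv]; exact inv_anti₀ hε (hn z h))
  have := hg.iv_deriv h0 (hne z0 h0)
  rw [hc] at this
  have e : deriv (Function.const ℂ c) z0 = 0 := deriv_const z0 c
  rw [e, eq_comm, div_eq_zero_iff] at this
  rcases this with h | h
  · exact hd (neg_eq_zero.1 h)
  · exact hne z0 h0 (sub_eq_zero.1 (pow_eq_zero_iff two_ne_zero |>.1 h))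

end Pool.Agent.H.MP_35e7b7_an
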