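import Pool.Agent.H.MP_35e7b7_an.A

set_option autoImplicit false

namespace Pool.Agent.H.MP_35e7b7_an
open Filter Topology Metric Set Complex Bornology ComplexConjugate

def Sh (g : ℂ → ℂ) (P : Set ℂ) (a : ℂ) : Prop :=
  ∀ ε > 0, ∃ δ > 0, ∀ z, z ∉ P →
    (‖g z - a‖ < δ → ‖deriv g z - a‖ ≤ ε) ∧ (‖deriv g z - a‖ < δ → ‖g z - a‖ ≤ ε)

variable {g : ℂ → ℂ} {P : Set ℂ}

lemma Sh.ex1 {a z : ℂ} (h : Sh g P a) (hz : z ∉ P) (e : g z = a) : deriv g z = a := by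
  rw [← sub_eq_zero, ← norm_le_zero_iff]
  refine le_of_forall_pos_le_add fun ε hε => ?_
  obtain ⟨δ, hδ, h1⟩ := h ε hε
  simpa using (h1 z hz).1 (by simpa [e] using hδ)

lemma Sh.ex2 {a z : ℂ} (h : Sh g P a) (hz : z ∉ P) (e : deriv g z = a) : g z = a := by
  rw [← sub_eq_zero, ← norm_le_zero_iff]
  refine le_of_forall_pos_le_add fun ε hε => ?_
  obtain ⟨δ, hδ, h1⟩ := h ε hε
  simpa using (h1 z hz).2 (by simpa [e] using hδ)

lemma Mer.disc (hg : Mer g P) {b z0 : ℂ} {δ M R r : ℝ} (hM : 0 ≤ M) (hr : 0 < r) (hδ : 0 < δ)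
    (hδ' : 4 * M * r ≤ δ) (h : ∀ w, w ∉ P → R ≤ ‖w‖ → ‖g w - b‖ < δ → ‖deriv g w‖ ≤ M)
    (hz : R + 3 * r ≤ ‖z0‖) : (∀ w ∈ ball z0 r, w ∉ P ∧ ‖g w - b‖ < δ) ∨
      (∀ w ∈ ball z0 r, w ∉ P → δ / 4 ≤ ‖g w - b‖) := by
  by_cases hB : ∀ w ∈ ball z0 r, w ∉ P → δ / 4 ≤ ‖g w - b‖
  · exact Or.inr hB
  push Not at hB
  obtain ⟨w1, h1, h2, h3⟩ := hB
  have h1' := mem_ball_iff_norm.1 h1
  have := hg.stay (c := b) (z0 := w1) (δ := δ) (ρ := 2 * r) hM h2 (fun w hw hP hb => h w hP (by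
    have a1 := mem_ball_iff_norm.1 hw
    have a2 := norm_sub_le_norm_sub_add_norm_sub w w1 z0
    have a3 := norm_sub_norm_le z0 w
    rw [norm_sub_rev] at a3
    linarith) hb) (by linarith)
  refine Or.inl fun w hw => this w ?_
  have a1 := mem_ball_iff_norm.1 hw
  have a2 := norm_sub_le_norm_sub_add_norm_sub w z0 w1
  rw [norm_sub_rev z0 w1] at a2
  rw [mem_ball_iff_norm]
  linarith

lemma Mer.ivb (hg : Mer g P) {b z0 : ℂ} {θ r : ℝ} (hθ : 0 < θ)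
    (h : ∀ w ∈ ball z0 r, w ∉ P → θ ≤ ‖g w - b‖) :
    ∀ w ∈ ball z0 r, AnalyticAt ℂ (iv g P b) w ∧ ‖iv g P b w‖ ≤ θ⁻¹ := by
  intro w hw
  by_cases hP : w ∈ P
  · exact ⟨hg.iv_an (Or.inl hP), by rw [iv_of_mem hP, norm_zero]; positivity⟩
  · have := h w hw hP
    refine ⟨hg.iv_an (Or.inr fun e => ?_), by rw [iv_of_not hP, norm_inv]; exact inv_anti₀ hθ this⟩
    rw [e, sub_self, norm_zero] at this
    linarith

lemma Mer.sph (hg : Mer g P) {b : ℂ} (hb : Sh g P b) :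
    ∃ C, 0 ≤ C ∧ ∀ z, z ∉ P → ‖deriv g z‖ ≤ C * (1 + ‖g z - b‖ ^ 2) := by
  obtain ⟨δ, hδ, h⟩ := hb 1 one_pos
  have hM : ∀ w, w ∉ P → ‖g w - b‖ < δ → ‖deriv g w‖ ≤ ‖b‖ + 1 := fun w hw h1 => by
    linarith [(h w hw).1 h1, norm_sub_norm_le (deriv g w) b]
  obtain ⟨r, hr⟩ : ∃ r, r = δ / (4 * (‖b‖ + 1)) := ⟨_, rfl⟩
  have r0 : 0 < r := by rw [hr]; positivity
  refine ⟨‖b‖ + 1 + (δ / 4)⁻¹ / (r / 2), by positivity, fun z hz => ?_⟩
  have p1 : 0 ≤ (δ / 4)⁻¹ / (r / 2) := by positivity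
  have p2 := sq_nonneg ‖g z - b‖
  have p3 := norm_nonneg b
  rcases hg.disc (b := b) (z0 := z) (R := -(3 * r)) (M := ‖b‖ + 1) (by positivity) r0 hδ
    (by rw [hr]; apply le_of_eq; field_simp) (fun w hw _ h1 => hM w hw h1) (by simp) with h1 | h1
  · have := hM z hz (h1 z (mem_ball_self r0)).2
    nlinarith
  · have h2 := hg.ivb (by positivity) h1
    have hs : closedBall z (r / 2) ⊆ ball z r := closedBall_subset_ball (by linarith)
    have h3 := norm_deriv_le_of_forall_mem_sphere_norm_le (c := z) (R := r / 2) (C := (δ / 4)⁻¹)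
      (f := iv g P b) (by positivity)
      (DifferentiableOn.diffContOnCl (by
        rw [closure_ball z (by positivity)]
        exact fun w hw => (h2 w (hs hw)).1.differentiableAt.differentiableWithinAt))
      (fun w hw => (h2 w (hs (sphere_subset_closedBall hw))).2)
    have h4 := h1 z (mem_ball_self r0) hz
    have h5 : 0 < ‖g z - b‖ := by linarith
    rw [hg.iv_deriv hz (sub_ne_zero.1 (norm_pos_iff.1 h5)), norm_div, norm_neg, norm_pow,
      div_le_iff₀ (by positivity)] at h3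
    nlinarith

lemma Mer.circ (hg : Mer g P) {a : ℂ} (ha : Sh g P a) (a0 : a ≠ 0) {τ : ℝ} (hτ : 0 < τ) :
    ∃ η > 0, ∃ r > 0, ∀ z0, z0 ∉ P → ‖g z0 - a‖ < η →
      (∀ w ∈ closedBall z0 r, w ∉ P ∧ ‖g w - a‖ < τ) ∧ ∀ w ∈ sphere z0 r, η ≤ ‖g w - a‖ := by
  have a1 : 0 < ‖a‖ := norm_pos_iff.2 a0
  obtain ⟨δ0, hδ0, h⟩ := ha (‖a‖ / 2) (by positivity)
  obtain ⟨δ, hδ, d1, d2⟩ : ∃ δ > 0, δ ≤ δ0 ∧ δ ≤ τ :=
    ⟨min δ0 τ, lt_min hδ0 hτ, min_le_left _ _, min_le_right _ _⟩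
  obtain ⟨r, hr⟩ : ∃ r, r = δ / (6 * ‖a‖) := ⟨_, rfl⟩
  have r0 : 0 < r := by rw [hr]; positivity
  have r1 : ‖a‖ * r = δ / 6 := by rw [hr]; field_simp
  refine ⟨δ / 24, by positivity, r, r0, fun z0 h0 h1 => ?_⟩
  have hs := hg.stay (c := a) (z0 := z0) (δ := δ) (ρ := 2 * r) (M := 3 / 2 * ‖a‖) (by positivity) h0
    (fun w _ hP hb => by
      linarith [(h w hP).1 (by linarith), norm_sub_norm_le (deriv g w) a]) (by nlinarith)
  have hsub : closedBall z0 r ⊆ ball z0 (2 * r) := closedBall_subset_ball (by linarith)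
  refine ⟨fun w hw => ⟨(hs w (hsub hw)).1, by linarith [(hs w (hsub hw)).2]⟩, fun w hw => ?_⟩
  have hD : ∀ x ∈ ball z0 (2 * r), HasDerivAt (fun x => g x - a * x) (deriv g x - a) x := fun x hx => by
    have := (hg.an x (hs x hx).1).differentiableAt.hasDerivAt.fun_sub ((hasDerivAt_id' x).const_mul a)
    rwa [mul_one] at this
  have b1 := (convex_ball z0 (2 * r)).norm_image_sub_le_of_norm_hasDerivWithin_le
    (f := fun x => g x - a * x) (C := ‖a‖ / 2) (fun x hx => (hD x hx).hasDerivWithinAt)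
    (fun x hx => (h x (hs x hx).1).1 (by linarith [(hs x hx).2]))
    (mem_ball_self (by linarith)) (hsub (sphere_subset_closedBall hw))
  have b2 : ‖w - z0‖ = r := mem_sphere_iff_norm.1 hw
  have b3 : ‖a * (w - z0)‖ = δ / 6 := by rw [norm_mul, b2, r1]
  have b4 : a * (w - z0) = (g w - a) - (g z0 - a) - (g w - a * w - (g z0 - a * z0)) := by ring
  have b5 := norm_sub_le (g w - a - (g z0 - a)) (g w - a * w - (g z0 - a * z0))
  have b6 := norm_sub_le (g w - a) (g z0 - a)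
  rw [← b4, b3] at b5
  rw [b2] at b1
  nlinarith

lemma maxc {Φ : ℂ → ℂ} (hΦ : Differentiable ℂ Φ) {z : ℂ} {r K : ℝ} (hr : 0 < r)
    (h : ∀ w ∈ sphere z r, ‖Φ w‖ ≤ K) : ‖Φ z‖ ≤ K :=
  norm_le_of_forall_mem_frontier_norm_le isBounded_ball hΦ.diffContOnCl
    (by rw [frontier_ball z hr.ne']; exact h) (subset_closure (mem_ball_self hr))

lemma quo1 {u v : ℂ → ℂ} {z u' v' : ℂ} (hu : HasDerivAt u u' z) (hv : HasDerivAt v v' z)
    (u0 : u z = 0) (v0 : v z = 0) (h : v' ≠ 0) : ∃ C, ∀ᶠ w in 𝓝[≠] z, ‖u w / v w‖ ≤ C := by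
  have h1 := (hasDerivAt_iff_tendsto_slope.1 hu).div (hasDerivAt_iff_tendsto_slope.1 hv) h
  refine ⟨‖u' / v'‖ + 1, ?_⟩
  filter_upwards [h1.norm.eventually (gt_mem_nhds (lt_add_one _)), self_mem_nhdsWithin] with w hw hz
  have hz' : w - z ≠ 0 := sub_ne_zero.2 hz
  have : (slope u z / slope v z) w = u w / v w := by
    simp only [Pi.div_apply, slope_def_field, u0, v0, sub_zero]
    rw [div_div_div_cancel_right₀ hz']
  rw [this] at hw
  exact hw.le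

lemma Mer.nop (hg : Mer g P) (h : ∀ z, z ∉ P → deriv g z = g z) (z : ℂ) : z ∉ P := by
  intro hz
  obtain ⟨h1, h2⟩ := hg.quo hz
  have h3 := (NormedAddGroup.tendsto_nhds_zero.1 h2) 1 one_pos
  obtain ⟨w, a1, a2, a3⟩ := (h1.and (h3.and (hg.iso z hz))).exists
  rw [← h w a3, div_self a1] at a2
  simp at a2

lemma ric (hg : Mer g P) {z0 a b c : ℂ} (h0 : z0 ∉ P) (hd : deriv g z0 ≠ 0) (ha : Sh g P a)
    (hc : c ≠ 0) (h : ∀ z, z ∉ P → deriv g z = g z - c * ((g z - a) * (g z - b))) :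
    b + c⁻¹ = a := by
  by_contra hne
  have e0 : 0 < ‖b + c⁻¹ - a‖ := norm_pos_iff.2 (sub_ne_zero.2 hne)
  obtain ⟨δ, hδ, h1⟩ := ha (‖b + c⁻¹ - a‖ / 2) (by positivity)
  have hF : ContinuousAt (fun x : ℂ => x - c * ((x - a) * (x - b))) (b + c⁻¹) := by fun_prop
  obtain ⟨θ, hθ, h2⟩ := Metric.continuousAt_iff.1 hF δ hδ
  obtain ⟨z, hz, h3⟩ := hg.dense h0 hd (b + c⁻¹) (lt_min hθ (half_pos e0))
  have h4 := h2 (x := g z) (by rw [dist_eq_norm]; exact h3.trans_le (min_le_left _ _))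
  have e : b + c⁻¹ - c * ((b + c⁻¹ - a) * (b + c⁻¹ - b)) = a := by field_simp; ring
  rw [e, dist_eq_norm, ← h z hz] at h4
  have h5 := (h1 z hz).2 h4
  have h6 := h3.trans_le (min_le_right _ _)
  have h7 := norm_sub_le_norm_sub_add_norm_sub (b + c⁻¹) (g z) a
  rw [norm_sub_rev (b + c⁻¹) (g z)] at h7
  linarith

lemma Mer.nev (hg : Mer g P) {z0 : ℂ} (h0 : z0 ∉ P) (hd : deriv g z0 ≠ 0) (c z : ℂ) :
    ∀ᶠ w in 𝓝[≠] z, w ∉ P ∧ g w ≠ c := by
  obtain ⟨y, hy, h⟩ := hg.dense h0 hd (c + 1) one_pos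
  refine hg.idn hy (fun e => ?_) z
  rw [e] at h
  simp at h

lemma cls1 (hg : Mer g P) {z0 a b : ℂ} (h0 : z0 ∉ P) (hd : deriv g z0 ≠ 0) (ha : Sh g P a)
    (hb : Sh g P b) (hab : a ≠ b) (a0 : a ≠ 0) (b0 : b ≠ 0) : ∀ z, z ∉ P → deriv g z = g z := by
  obtain ⟨C, C0, hC⟩ := hg.sph hb
  obtain ⟨φ, hφ⟩ : ∃ φ : ℂ → ℂ, φ = fun z => (g z - deriv g z) / ((g z - a) * (g z - b)) := ⟨_, rfl⟩
  have bd : ∀ η > 0, ∃ K, ∀ z, z ∉ P → η ≤ ‖g z - a‖ → η ≤ ‖g z - b‖ → ‖φ z‖ ≤ K := by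
    intro η hη
    refine ⟨1 / η + (‖b‖ + C) / η ^ 2 + C * (1 + ‖a - b‖ / η), fun z hz h1 h2 => ?_⟩
    rw [hφ]
    beta_reduce
    have x0 : 0 < ‖g z - a‖ := by linarith
    have y0 : 0 < ‖g z - b‖ := by linarith
    rw [norm_div, norm_mul, div_le_iff₀ (by positivity)]
    have c1 := hC z hz
    have c2 := norm_sub_le (g z) (deriv g z)
    have c3 := norm_sub_norm_le (g z) b
    have c4 := norm_sub_le_norm_sub_add_norm_sub (g z) a b
    generalize ‖g z - a‖ = x at *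
    generalize ‖g z - b‖ = y at *
    have d1 : y ≤ 1 / η * (x * y) := by
      rw [one_div, ← div_eq_inv_mul, le_div_iff₀ hη]; nlinarith
    have d2 : ‖b‖ + C ≤ (‖b‖ + C) / η ^ 2 * (x * y) := by
      rw [div_mul_eq_mul_div, le_div_iff₀ (by positivity)]
      exact mul_le_mul_of_nonneg_left (by nlinarith) (by positivity)
    have d3 : ‖a - b‖ ≤ ‖a - b‖ / η * x := by
      rw [div_mul_eq_mul_div, le_div_iff₀ hη]
      exact mul_le_mul_of_nonneg_left h1 (by positivity)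
    have d4 : C * y ^ 2 ≤ C * (1 + ‖a - b‖ / η) * (x * y) := by
      rw [mul_assoc]
      exact mul_le_mul_of_nonneg_left (by nlinarith) C0
    nlinarith
  have hpt : ∀ a b : ℂ, Sh g P a → a ≠ b → a ≠ 0 → ∀ z, z ∉ P → g z = a →
      ∃ C, ∀ᶠ w in 𝓝[≠] z, ‖(g w - deriv g w) / ((g w - a) * (g w - b))‖ ≤ C := by
    intro a b ha hab a0 z hz e
    have g1 := (hg.an z hz).differentiableAt.hasDerivAt
    have g2 := (hg.an z hz).deriv.differentiableAt.hasDerivAt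
    refine quo1 (g1.sub g2) ((g1.sub_const a).mul (g1.sub_const b)) ?_ ?_ ?_
    · simp [ha.ex1 hz e, e]
    · simp [e]
    · simp [ha.ex1 hz e, e, a0, sub_ne_zero.2 hab]
  obtain ⟨Φ, hΦ, he⟩ := rem (φ := φ) (E := {z | z ∈ P ∨ g z = a ∨ g z = b}) (fun z hz => by
      simp only [mem_setOf_eq, not_or] at hz
      have g1 := hg.an z hz.1
      rw [hφ]
      exact (g1.sub g1.deriv).div ((g1.sub analyticAt_const).mul (g1.sub analyticAt_const))
        (mul_ne_zero (sub_ne_zero.2 hz.2.1) (sub_ne_zero.2 hz.2.2)))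
    (fun z _ => by
      filter_upwards [hg.nev h0 hd a z, hg.nev h0 hd b z] with w h1 h2
      simp [h1.1, h1.2, h2.2])
    (fun z hz => by
      by_cases hP : z ∈ P
      · obtain ⟨K, hK⟩ := bd 1 one_pos
        refine ⟨K, ?_⟩
        filter_upwards [hg.far a hP 1, hg.far b hP 1] with w h1 h2
        exact hK w h1.1 h1.2 h2.2
      · rw [hφ]
        rcases (hz.resolve_left hP) with e | e
        · exact hpt a b ha hab a0 z hP e
        · simpa only [mul_comm] using hpt b a hb hab.symm b0 z hP e)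
  have ab : 0 < ‖a - b‖ := norm_pos_iff.2 (sub_ne_zero.2 hab)
  obtain ⟨η1, e1, r1, s1, k1⟩ := hg.circ ha a0 (half_pos ab)
  obtain ⟨η2, e2, r2, s2, k2⟩ := hg.circ hb b0 (half_pos ab)
  obtain ⟨η, e0, f1, f2, f3⟩ : ∃ η > 0, η ≤ η1 ∧ η ≤ η2 ∧ η ≤ ‖a - b‖ / 2 :=
    ⟨min η1 (min η2 (‖a - b‖ / 2)), lt_min e1 (lt_min e2 (half_pos ab)), min_le_left _ _,
      (min_le_right _ _).trans (min_le_left _ _), (min_le_right _ _).trans (min_le_right _ _)⟩
  obtain ⟨K, hK⟩ := bd η e0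
  have hK1 : ∀ z, z ∉ P → η ≤ ‖g z - a‖ → η ≤ ‖g z - b‖ → ‖Φ z‖ ≤ K := by
    intro z hz h1 h2
    rw [he z]
    · exact hK z hz h1 h2
    · rintro (h | h | h)
      · exact hz h
      · rw [h, sub_self, norm_zero] at h1; linarith
      · rw [h, sub_self, norm_zero] at h2; linarith
  have hK2 : ∀ z, z ∉ P → ‖Φ z‖ ≤ K := by
    intro z hz
    by_cases h1 : η ≤ ‖g z - a‖
    · by_cases h2 : η ≤ ‖g z - b‖
      · exact hK1 z hz h1 h2
      · obtain ⟨m1, m2⟩ := k2 z hz (by linarith)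
        refine maxc hΦ s2 fun w hw => ?_
        have m3 := m1 w (sphere_subset_closedBall hw)
        have m4 := norm_sub_le_norm_sub_add_norm_sub a (g w) b
        rw [norm_sub_rev a (g w)] at m4
        exact hK1 w m3.1 (by linarith [m3.2]) (f2.trans (m2 w hw))
    · obtain ⟨m1, m2⟩ := k1 z hz (by linarith)
      refine maxc hΦ s1 fun w hw => ?_
      have m3 := m1 w (sphere_subset_closedBall hw)
      have m4 := norm_sub_le_norm_sub_add_norm_sub a (g w) b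
      rw [norm_sub_rev a (g w)] at m4
      exact hK1 w m3.1 (f1.trans (m2 w hw)) (by linarith [m3.2])
  obtain ⟨c, hc⟩ := hΦ.exists_const_forall_eq_of_bounded (by
    refine isBounded_iff_forall_norm_le.2 ⟨K, ?_⟩
    rintro _ ⟨z, rfl⟩
    exact le_of_tendsto (hΦ.continuous.norm.continuousAt.tendsto.mono_left
      (nhdsWithin_le_nhds (s := {z}ᶜ))) ((hg.nb' z).mono hK2))
  have hr : ∀ z, z ∉ P → deriv g z = g z - c * ((g z - a) * (g z - b)) := by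
    intro z hz
    by_cases h1 : g z = a
    · simp [ha.ex1 hz h1, h1]
    by_cases h2 : g z = b
    · simp [hb.ex1 hz h2, h2]
    have := he z (by simp [hz, h1, h2])
    rw [hc, hφ] at this
    have n1 := sub_ne_zero.2 h1
    have n2 := sub_ne_zero.2 h2
    rw [this]
    field_simp
    ring
  by_cases c0 : c = 0
  · intro z hz
    rw [hr z hz, c0]; ring
  · have u1 := ric hg h0 hd ha c0 hr
    have u2 := ric hg h0 hd hb c0 (b := a) (fun z hz => by rw [hr z hz]; ring)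
    have : c⁻¹ = 0 := by linear_combination (u1 + u2) / 2
    exact absurd (inv_eq_zero.1 this) c0

end Pool.Agent.H.MP_35e7b7_an
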