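import Pool.Agent.H.MP_35e7b7_an.B

set_option autoImplicit false

namespace Pool.Agent.H.MP_35e7b7_an
open Filter Topology Metric Set Complex Bornology ComplexConjugate

variable {g : ℂ → ℂ} {P : Set ℂ}

lemma nsq (u s : ℂ) : ‖u + s‖ ^ 2 = ‖u‖ ^ 2 + 2 * (conj u * s).re + ‖s‖ ^ 2 := by
  simp only [Complex.sq_norm, normSq_apply, add_re, add_im, mul_re, conj_re, conj_im]
  ring

lemma exl {x : ℝ} (h : |x| ≤ 1 / 2) : Real.exp (x - 2 * x ^ 2) ≤ 1 + x := by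
  obtain ⟨h1, h2⟩ := abs_le.1 h
  have p : 0 < 1 + x := by linarith
  have a1 : x - 2 * x ^ 2 ≤ x / (1 + x) := by
    rw [le_div_iff₀ p]; nlinarith [sq_nonneg x]
  have a2 := Real.add_one_le_exp (-(x / (1 + x)))
  have a3 : -(x / (1 + x)) + 1 = (1 + x)⁻¹ := by field_simp; ring
  rw [a3, Real.exp_neg] at a2
  exact (Real.exp_le_exp.2 a1).trans ((inv_le_inv₀ p (Real.exp_pos _)).1 a2)

lemma slp {u : ℂ → ℂ} {z : ℂ} (hu : DifferentiableAt ℂ u z) :
    Tendsto (fun w => ‖u w - u z‖ / ‖w - z‖) (𝓝[≠] z) (𝓝 ‖deriv u z‖) := by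
  have := (hasDerivAt_iff_tendsto_slope.1 hu.hasDerivAt).norm
  simpa only [slope_def_field, norm_div] using this

lemma loc {ψ N : ℂ → ℂ} {z v : ℂ} {ρ : ℝ} (hψ : AnalyticAt ℂ ψ z) (hg : AnalyticAt ℂ g z)
    (hN : AnalyticAt ℂ N z) (N0 : N z ≠ 0) (hw : ‖g z - v‖ < ρ) (hG : deriv g z ≠ 0)
    (hmax : ∀ᶠ y in 𝓝 z, ‖N y‖ * Real.exp (‖ψ y‖ ^ 2) * (ρ ^ 2 - ‖g y - v‖ ^ 2) ≤
      ‖N z‖ * Real.exp (‖ψ z‖ ^ 2) * (ρ ^ 2 - ‖g z - v‖ ^ 2)) :
    ‖deriv ψ z‖ * (ρ ^ 2 - ‖g z - v‖ ^ 2) ≤ 20 * ρ * ‖deriv g z‖ := by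
  by_contra hlt
  push Not at hlt
  have ρ0 : 0 < ρ := (norm_nonneg _).trans_lt hw
  obtain ⟨W, hW⟩ : ∃ W, W = ρ ^ 2 - ‖g z - v‖ ^ 2 := ⟨_, rfl⟩
  have W0 : 0 < W := by rw [hW]; nlinarith [norm_nonneg (g z - v)]
  have W1 : W ≤ ρ ^ 2 := by rw [hW]; nlinarith [norm_nonneg (g z - v)]
  rw [← hW] at hlt hmax
  have G0 : 0 < ‖deriv g z‖ := norm_pos_iff.2 hG
  have A0 : 0 < ‖deriv ψ z‖ := by
    by_contra h
    have : ‖deriv ψ z‖ = 0 := le_antisymm (not_lt.1 h) (norm_nonneg _)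
    rw [this] at hlt
    nlinarith [mul_pos ρ0 G0]
  obtain ⟨h, hh⟩ : ∃ h : ℂ → ℂ, h = fun y => 2 * (conj (ψ z) * (ψ y - ψ z)) -
    2 * (conj (g z - v) * (g y - g z)) / W := ⟨_, rfl⟩
  have ha : AnalyticAt ℂ h z := by
    rw [hh]
    exact (analyticAt_const.mul (analyticAt_const.mul (hψ.sub analyticAt_const))).sub
      ((analyticAt_const.mul (analyticAt_const.mul (hg.sub analyticAt_const))).div_const)
  have hB : AnalyticAt ℂ (fun y => N y * exp (h y)) z := hN.mul ha.cexp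
  have hz : ‖N z * exp (h z)‖ = ‖N z‖ := by simp [hh]
  have key : ∀ᶠ y in 𝓝[≠] z, ‖N y * exp (h y)‖ < ‖N z * exp (h z)‖ := by
    have c1 : Tendsto (fun y => ‖g y - g z‖) (𝓝 z) (𝓝 0) :=
      tendsto_iff_norm_sub_tendsto_zero.1 hg.continuousAt.tendsto
    have c2 := c1.eventually (gt_mem_nhds (lt_min ρ0 (show 0 < W / (6 * ρ) by positivity)))
    filter_upwards [(hmax.and c2).filter_mono nhdsWithin_le_nhds, self_mem_nhdsWithin,
      (slp hψ.differentiableAt).eventually (lt_mem_nhds (half_lt_self A0)),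
      (slp hg.differentiableAt).eventually (gt_mem_nhds (show ‖deriv g z‖ < 2 * ‖deriv g z‖ by
        linarith))] with y hy hyz s1 s2
    obtain ⟨m1, m2⟩ := hy
    have t0 : 0 < ‖y - z‖ := norm_pos_iff.2 (sub_ne_zero.2 hyz)
    rw [lt_div_iff₀ t0] at s1
    rw [div_lt_iff₀ t0] at s2
    have e1 := nsq (ψ z) (ψ y - ψ z)
    have e2 := nsq (g z - v) (g y - g z)
    rw [add_sub_cancel] at e1
    rw [show g z - v + (g y - g z) = g y - v by ring] at e2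
    have e3 : (h y).re = 2 * (conj (ψ z) * (ψ y - ψ z)).re -
        2 * (conj (g z - v) * (g y - g z)).re / W := by
      rw [hh]; simp only [sub_re, div_ofReal_re, mul_re, re_ofNat, im_ofNat]; ring
    have e4 : |(conj (g z - v) * (g y - g z)).re| ≤ ρ * ‖g y - g z‖ := by
      refine (abs_re_le_norm _).trans ?_
      rw [norm_mul, RCLike.norm_conj]
      exact mul_le_mul_of_nonneg_right hw.le (norm_nonneg _)
    rw [hz, norm_mul, norm_exp]
    have d0 := norm_nonneg (g y - g z)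
    have d1 := m2.trans_le (min_le_left _ _)
    have d2 := m2.trans_le (min_le_right _ _)
    rw [lt_div_iff₀ (by positivity)] at d2
    generalize ‖g y - g z‖ = d at *
    generalize ‖ψ y - ψ z‖ = s at *
    generalize ‖y - z‖ = t at *
    generalize (conj (g z - v) * (g y - g z)).re = β at *
    generalize (conj (ψ z) * (ψ y - ψ z)).re = α at *
    generalize ‖deriv g z‖ = G at *
    generalize ‖deriv ψ z‖ = A at *
    obtain ⟨x, hx⟩ : ∃ x, x = -(2 * β + d ^ 2) / W := ⟨_, rfl⟩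
    have x1 : |x| ≤ 3 * ρ * d / W := by
      rw [hx, abs_div, abs_of_pos W0, abs_neg]
      refine div_le_div_of_nonneg_right ?_ W0.le
      obtain ⟨f1, f2⟩ := abs_le.1 e4
      rw [abs_le]; constructor <;> nlinarith
    have x2 : |x| ≤ 1 / 2 := x1.trans (by rw [div_le_iff₀ W0]; nlinarith)
    have x3 : ρ ^ 2 - ‖g y - v‖ ^ 2 = W * (1 + x) := by
      rw [hx, e2]; field_simp; rw [hW]; ring
    have x4 : x ^ 2 ≤ (3 * ρ * d / W) ^ 2 := by
      rw [← sq_abs]; exact pow_le_pow_left₀ (abs_nonneg _) x1 2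
    have x5 : d ^ 2 / W ≤ (ρ * d / W) ^ 2 := by
      rw [div_pow, div_le_div_iff₀ W0 (by positivity)]
      have := mul_le_mul_of_nonneg_left W1 (show 0 ≤ d ^ 2 * W by positivity)
      nlinarith
    have x6 : 5 * (ρ * d / W) ≤ s := by
      rw [← mul_div_assoc, div_le_iff₀ W0]
      have f1 := mul_lt_mul_of_pos_right s1 W0
      have f2 := mul_lt_mul_of_pos_right hlt t0
      have f3 := mul_lt_mul_of_pos_left s2 ρ0
      nlinarith
    have x7 : 0 < s := by nlinarith [mul_pos A0 t0]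
    have x8 : d ^ 2 / W + 2 * x ^ 2 < s ^ 2 := by
      have f0 : 0 ≤ ρ * d / W := by positivity
      have f1 : 3 * ρ * d / W = 3 * (ρ * d / W) := by ring
      rw [f1] at x4
      generalize ρ * d / W = u at *
      nlinarith
    have x9 : (h y).re < ‖ψ y‖ ^ 2 - ‖ψ z‖ ^ 2 + (x - 2 * x ^ 2) := by
      have f1 : x = -(2 * β / W) - d ^ 2 / W := by rw [hx]; ring
      rw [e3, e1]; linarith
    have y1 : ‖N y‖ * Real.exp (‖ψ y‖ ^ 2 - ‖ψ z‖ ^ 2 + (x - 2 * x ^ 2)) ≤ ‖N z‖ := by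
      rw [x3] at m1
      rw [Real.exp_add, Real.exp_sub]
      have f1 := exl x2
      have f2 := Real.exp_pos (‖ψ z‖ ^ 2)
      have f3 : ‖N y‖ * Real.exp (‖ψ y‖ ^ 2) * (1 + x) ≤ ‖N z‖ * Real.exp (‖ψ z‖ ^ 2) := by
        refine le_of_mul_le_mul_right ?_ W0
        linarith
      have f4 := mul_le_mul_of_nonneg_left f1
        (show 0 ≤ ‖N y‖ * Real.exp (‖ψ y‖ ^ 2) by positivity)
      rw [div_mul_eq_mul_div, ← mul_div_assoc, div_le_iff₀ f2]
      linarith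
    by_cases hy0 : N y = 0
    · rw [hy0, norm_zero, zero_mul]; exact norm_pos_iff.2 N0
    · exact (mul_lt_mul_of_pos_left (Real.exp_lt_exp.2 x9) (norm_pos_iff.2 hy0)).trans_le y1
  have lm : IsLocalMax (norm ∘ fun y => N y * exp (h y)) z := by
    filter_upwards [eventually_nhdsWithin_iff.1 key] with y hy
    by_cases e : y = z
    · rw [e]
    · exact (hy e).le
  have := norm_eventually_eq_of_isLocalMax
    (hB.eventually_analyticAt.mono fun y hy => hy.differentiableAt) lm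
  obtain ⟨y, y1, y2⟩ := (key.and (this.filter_mono nhdsWithin_le_nhds)).exists
  exact y1.ne y2

lemma ahl (hg : Mer g P) {p v z0 : ℂ} {r ρ κ : ℝ} (r0 : 0 < r) (ρ0 : 0 < ρ) (κ0 : 0 < κ)
    (h1 : ∀ z, z ∉ P → ‖g z - v‖ ≤ ρ → r ≤ ‖z - p‖ ∧ κ ≤ ‖deriv g z‖) (h0 : z0 ∉ P)
    (e0 : g z0 = v) : ρ * r ≤ 60 * ‖deriv g z0‖ * ‖z0 - p‖ ^ 2 := by
  obtain ⟨T, hT⟩ : ∃ T, T = {z | z ∉ P ∧ ‖g z - v‖ ≤ ρ} := ⟨_, rfl⟩
  have mT : ∀ z, z ∈ T ↔ z ∉ P ∧ ‖g z - v‖ ≤ ρ := fun z => by rw [hT]; rfl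
  have cn : ∀ z, z ∉ P → ContinuousAt (fun y => ‖g y - v‖) z := fun z hz => by
    have := (hg.an z hz).continuousAt
    fun_prop
  have hTc : IsClosed T := by
    rw [← isOpen_compl_iff, isOpen_iff_mem_nhds]
    intro z hz
    by_cases hP : z ∈ P
    · filter_upwards [eventually_nhdsWithin_iff.1 (hg.far v hP (ρ + 1))] with w hw hwT
      rw [mT] at hwT
      by_cases e : w = z
      · exact hwT.1 (e ▸ hP)
      · linarith [(hw e).2, hwT.2]
    · have : ρ < ‖g z - v‖ := by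
        by_contra hh
        exact hz ((mT z).2 ⟨hP, not_lt.1 hh⟩)
      filter_upwards [(cn z hP).eventually (lt_mem_nhds this)] with w hw hwT
      linarith [((mT w).1 hwT).2]
  obtain ⟨ψ, hψ⟩ : ∃ ψ : ℂ → ℂ, ψ = fun y => r * (y - p)⁻¹ := ⟨_, rfl⟩
  obtain ⟨N, hN⟩ : ∃ N : ℂ → ℂ, N = fun y => ((y - p) ^ 2 * deriv g y)⁻¹ := ⟨_, rfl⟩
  have an : ∀ z ∈ T, z - p ≠ 0 ∧ deriv g z ≠ 0 ∧ AnalyticAt ℂ ψ z ∧ AnalyticAt ℂ N z := by
    intro z hz
    obtain ⟨a1, a2⟩ := (mT z).1 hz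
    obtain ⟨a3, a4⟩ := h1 z a1 a2
    have b1 : z - p ≠ 0 := norm_pos_iff.1 (by linarith)
    have b2 : deriv g z ≠ 0 := norm_pos_iff.1 (by linarith)
    have b3 : AnalyticAt ℂ (fun y => y - p) z := analyticAt_id.sub analyticAt_const
    rw [hψ, hN]
    exact ⟨b1, b2, analyticAt_const.mul (b3.inv b1),
      ((b3.pow 2).mul (hg.an z a1).deriv).inv (mul_ne_zero (pow_ne_zero 2 b1) b2)⟩
  have nN : ∀ y, ‖N y‖ = (‖y - p‖ ^ 2 * ‖deriv g y‖)⁻¹ := fun y => by simp [hN]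
  have nψ : ∀ y ∈ T, Real.exp (‖ψ y‖ ^ 2) ≤ 3 := by
    intro y hy
    obtain ⟨a1, a2⟩ := (mT y).1 hy
    have a3 := (h1 y a1 a2).1
    have : ‖ψ y‖ ≤ 1 := by
      rw [hψ]
      simp only [norm_mul, norm_inv, norm_real, Real.norm_eq_abs, abs_of_pos r0]
      rw [← div_eq_mul_inv, div_le_one (by linarith)]; exact a3
    have a4 : ‖ψ y‖ ^ 2 ≤ 1 := by nlinarith [norm_nonneg (ψ y)]
    exact (Real.exp_le_exp.2 a4).trans (by linarith [Real.exp_one_lt_d9])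
  obtain ⟨Λ, hΛ⟩ : ∃ Λ : ℂ → ℝ, Λ = fun y => ‖N y‖ * Real.exp (‖ψ y‖ ^ 2) * (ρ ^ 2 - ‖g y - v‖ ^ 2) :=
    ⟨_, rfl⟩
  have z0T : z0 ∈ T := (mT z0).2 ⟨h0, by simp [e0, ρ0.le]⟩
  have q1 := norm_pos_iff.2 (an z0 z0T).1
  have q2 := norm_pos_iff.2 (an z0 z0T).2.1
  have L0 : ‖N z0‖ * ρ ^ 2 ≤ Λ z0 := by
    rw [hΛ]
    simp only [e0, sub_self, norm_zero]
    have := Real.one_le_exp (sq_nonneg ‖ψ z0‖)
    have := mul_le_mul_of_nonneg_left this (show 0 ≤ ‖N z0‖ * ρ ^ 2 by positivity)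
    nlinarith
  have L1 : 0 < ‖N z0‖ * ρ ^ 2 := by rw [nN]; positivity
  obtain ⟨z, hz, hm⟩ := ContinuousOn.exists_isMaxOn' (f := Λ) (s := T) (fun z hz => by
      have a1 := (an z hz).2.2.1.continuousAt
      have a2 := (an z hz).2.2.2.continuousAt
      have a3 := cn z ((mT z).1 hz).1
      refine ContinuousAt.continuousWithinAt ?_
      rw [hΛ]
      exact (a2.norm.mul (a1.norm.pow 2).rexp).mul (continuousAt_const.sub (a3.pow 2))) hTc z0T (by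
    have t1 : Tendsto (fun y : ℂ => ‖y - p‖) (cocompact ℂ) atTop := by
      simpa only [dist_eq_norm] using tendsto_dist_right_cocompact_atTop p
    have t2 : Tendsto (fun y : ℂ => (‖y - p‖ ^ 2 * κ)⁻¹ * 3 * ρ ^ 2) (cocompact ℂ) (𝓝 0) := by
      have := ((((tendsto_pow_atTop two_ne_zero).comp t1).atTop_mul_const κ0).inv_tendsto_atTop.mul_const
        3).mul_const (ρ ^ 2)
      simpa using this
    rw [eventually_inf_principal]
    filter_upwards [t2.eventually (gt_mem_nhds L1)] with y hy hyT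
    refine le_trans ?_ (hy.le.trans L0)
    obtain ⟨a1, a2⟩ := (mT y).1 hyT
    obtain ⟨a3, a4⟩ := h1 y a1 a2
    have a5 : 0 < ‖y - p‖ := by linarith
    rw [hΛ]
    refine mul_le_mul (mul_le_mul ?_ (nψ y hyT) (by positivity) (by positivity))
      (by nlinarith [norm_nonneg (g y - v)]) (by nlinarith [norm_nonneg (g y - v)]) (by positivity)
    rw [nN]
    exact inv_anti₀ (by positivity) (mul_le_mul_of_nonneg_left a4 (by positivity)))
  obtain ⟨a1, a2⟩ := (mT z).1 hz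
  obtain ⟨b1, b2, b3, b4⟩ := an z hz
  have L2 : Λ z0 ≤ Λ z := hm z0T
  have hw : ‖g z - v‖ < ρ := by
    refine lt_of_le_of_ne a2 fun e => ?_
    have : Λ z = 0 := by rw [hΛ]; simp [e]
    linarith
  have N0 : N z ≠ 0 := by rw [hN]; exact inv_ne_zero (mul_ne_zero (pow_ne_zero 2 b1) b2)
  have hl := loc b3 (hg.an z a1) b4 N0 hw b2 (by
    filter_upwards [hg.nb a1, (cn z a1).eventually (gt_mem_nhds hw)] with y y1 y2
    have := hm ((mT y).2 ⟨y1, y2.le⟩)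
    rw [hΛ] at this
    exact this)
  have dψ : ‖deriv ψ z‖ = r / ‖z - p‖ ^ 2 := by
    have := ((((hasDerivAt_id' z).sub_const p).fun_inv b1).const_mul (r:ℂ)).deriv
    rw [hψ, this]
    simp [abs_of_pos r0, div_eq_mul_inv]
  have c1 := norm_pos_iff.2 b1
  have c2 := norm_pos_iff.2 b2
  have L3 : Λ z ≤ 60 * ρ / r := by
    rw [hΛ]
    beta_reduce
    rw [dψ, div_mul_eq_mul_div, div_le_iff₀ (by positivity)] at hl
    have w0 : 0 ≤ ρ ^ 2 - ‖g z - v‖ ^ 2 := by nlinarith [norm_nonneg (g z - v)]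
    refine (mul_le_mul_of_nonneg_right (mul_le_mul_of_nonneg_left (nψ z hz) (norm_nonneg _)) w0).trans ?_
    rw [nN, le_div_iff₀ r0, mul_assoc, mul_assoc, inv_mul_le_iff₀ (by positivity)]
    nlinarith
  have L4 := (L0.trans L2).trans L3
  rw [nN, le_div_iff₀ r0, mul_assoc, inv_mul_le_iff₀ (by positivity)] at L4
  refine le_of_mul_le_mul_left ?_ ρ0
  nlinarith

end Pool.Agent.H.MP_35e7b7_an
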