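import Pool.Agent.H.MP_35e7b7_an.C

set_option autoImplicit false

namespace Pool.Agent.H.MP_35e7b7_an
open Filter Topology Metric Set Complex Bornology

variable {g : ℂ → ℂ} {P : Set ℂ}

lemma coef {a0 a1 a2 a3 a4 : ℂ}
    (h : ∀ᶠ z in cobounded ℂ, a0 + a1 * z + a2 * z ^ 2 + a3 * z ^ 3 + a4 * z ^ 4 = 0) :
    a1 = 0 ∧ a2 = 0 ∧ a3 = 0 ∧ a4 = 0 := by
  have hp : (Polynomial.C a0 + Polynomial.C a1 * Polynomial.X + Polynomial.C a2 * Polynomial.X ^ 2 +
      Polynomial.C a3 * Polynomial.X ^ 3 + Polynomial.C a4 * Polynomial.X ^ 4 : Polynomial ℂ) = 0 := by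
    refine Polynomial.eq_zero_of_infinite_isRoot _ fun hf => ?_
    obtain ⟨z, h1, h2⟩ := (h.and hf.isBounded).exists
    exact h2 (by simpa using h1)
  have c1 := congrArg (Polynomial.coeff · 1) hp
  have c2 := congrArg (Polynomial.coeff · 2) hp
  have c3 := congrArg (Polynomial.coeff · 3) hp
  have c4 := congrArg (Polynomial.coeff · 4) hp
  simp [Polynomial.coeff_X, Polynomial.coeff_C, Polynomial.coeff_X_pow] at c1 c2 c3 c4
  exact ⟨c1, c2, c3, c4⟩

lemma pg2 {Φ : ℂ → ℂ} (hΦ : Differentiable ℂ Φ) {C R : ℝ} (h : ∀ z, R ≤ ‖z‖ → ‖Φ z‖ ≤ C * ‖z‖ ^ 2) :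
    ∃ c0 c1 c2 : ℂ, ∀ z, Φ z = c0 + c1 * z + c2 * z ^ 2 := by
  obtain ⟨p, hp, he⟩ := pgr 2 Φ hΦ C R h
  refine ⟨p.coeff 0, p.coeff 1, p.coeff 2, fun z => ?_⟩
  rw [he, Polynomial.eval_eq_sum_range' (n := 3) (by omega)]
  simp [Finset.sum_range_succ]

lemma exH (hg : Mer g P) {z0 : ℂ} (h0 : z0 ∉ P) (hd : deriv g z0 ≠ 0) (ha : Sh g P 0) :
    ∃ H : ℂ → ℂ, Differentiable ℂ H ∧ (∀ z, z ∈ P ∨ g z = 0 → H z = 0) ∧
      ∀ z, z ∉ P → g z ≠ 0 → H z = g z / deriv g z := by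
  have ht : ∀ z, z ∈ P ∨ g z = 0 → Tendsto (fun w => g w / deriv g w) (𝓝[≠] z) (𝓝 0) := by
    intro z hz
    by_cases hP : z ∈ P
    · exact (hg.quo hP).2
    · exact (quo0 (hg.an z hP) (hz.resolve_left hP) ((hg.nev h0 hd 0 z).mono fun w hw => hw.2)).2
  have hn : ∀ z, ∀ᶠ w in 𝓝[≠] z, w ∉ {z | z ∈ P ∨ g z = 0} := fun z =>
    (hg.nev h0 hd 0 z).mono fun w hw => by simp [hw.1, hw.2]
  obtain ⟨H, hH, he⟩ := rem (φ := fun w => g w / deriv g w) (E := {z | z ∈ P ∨ g z = 0})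
    (fun z hz => by
      simp only [mem_setOf_eq, not_or] at hz
      exact (hg.an z hz.1).div (hg.an z hz.1).deriv fun e => hz.2 (ha.ex2 hz.1 e))
    (fun z _ => hn z) (fun z hz => ⟨1, ((NormedAddGroup.tendsto_nhds_zero.1 (ht z hz)) 1 one_pos).mono
      fun w hw => hw.le⟩)
  refine ⟨H, hH, fun z hz => ?_, fun z h1 h2 => he z (by simp [h1, h2])⟩
  exact tendsto_nhds_unique (hH.continuous.continuousAt.tendsto.mono_left
    (nhdsWithin_le_nhds (s := {z}ᶜ))) ((ht z hz).congr' ((hn z).mono fun w hw => (he w hw).symm))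

lemma cls0 (hg : Mer g P) {z0 b : ℂ} (h0 : z0 ∉ P) (hd : deriv g z0 ≠ 0) (ha : Sh g P 0)
    (hb : Sh g P b) (b0 : b ≠ 0) : ∀ z, z ∉ P → deriv g z = g z := by
  obtain ⟨H, hH, H0, H1⟩ := exH hg h0 hd ha
  have b1 : 0 < ‖b‖ := norm_pos_iff.2 b0
  have gH : ∀ z, z ∉ P → g z = H z * deriv g z := by
    intro z hz
    by_cases e : g z = 0
    · rw [H0 z (Or.inr e), e, zero_mul]
    · rw [H1 z hz e, div_mul_cancel₀ _ fun e' => e (ha.ex2 hz e')]
  have Hb : ∀ z, z ∉ P → g z = b → H z = 1 := fun z hz e => by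
    rw [H1 z hz (e ▸ b0), hb.ex1 hz e, e, div_self b0]
  obtain ⟨Φ, hΦ, he⟩ := rem (φ := fun w => (H w - 1) * iv g P b w) (E := {z | z ∉ P ∧ g z = b})
    (fun z hz => ((hH.analyticAt z).sub analyticAt_const).mul (hg.iv_an (by
      by_cases hP : z ∈ P
      · exact Or.inl hP
      · exact Or.inr fun e => hz ⟨hP, e⟩)))
    (fun z _ => (hg.nev h0 hd b z).mono fun w hw h => hw.2 h.2)
    (fun z hz => by
      obtain ⟨C, hC⟩ := quo1 ((hH z).hasDerivAt.sub_const 1)
        ((hg.an z hz.1).differentiableAt.hasDerivAt.sub_const b) (by simp [Hb z hz.1 hz.2])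
        (by simp [hz.2]) (by rw [hb.ex1 hz.1 hz.2]; exact b0)
      refine ⟨C, ?_⟩
      filter_upwards [hC, hg.nb' z] with w h1 h2
      rwa [iv_of_not h2, ← div_eq_mul_inv])
  have Φ0 : ∀ z ∈ P, Φ z = 0 := fun z hz => by
    rw [he z fun h => h.1 hz, iv_of_mem hz, mul_zero]
  have Φ1 : ∀ z, z ∉ P → Φ z * (g z - b) = H z - 1 := by
    intro z hz
    by_cases e : g z = b
    · simp [Hb z hz e, e]
    · rw [he z fun h => e h.2, iv_of_not hz, mul_assoc, inv_mul_cancel₀ (sub_ne_zero.2 e), mul_one]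
  have low : ∀ ε > 0, ∃ κ > 0, ∀ z, z ∉ P → ε ≤ ‖g z‖ → κ ≤ ‖deriv g z‖ := by
    intro ε hε
    obtain ⟨κ, κ0, h⟩ := ha (ε / 2) (by positivity)
    refine ⟨κ, κ0, fun z hz h1 => not_lt.1 fun h2 => ?_⟩
    have := (h z hz).2 (by simpa using h2)
    rw [sub_zero] at this
    linarith
  obtain ⟨η, η0, r, r0, hc⟩ := hg.circ hb b0 (half_pos b1)
  have bd : ∀ ε > 0, ∃ K, 0 ≤ K ∧ ∀ z, (z ∈ P ∨ ε ≤ ‖g z‖) → ‖Φ z‖ ≤ K := by
    intro ε hε
    obtain ⟨κ, κ0, h⟩ := low (min ε (‖b‖ / 2)) (lt_min hε (half_pos b1))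
    have k1 : ∀ z, z ∉ P → min ε (‖b‖ / 2) ≤ ‖g z‖ → η ≤ ‖g z - b‖ →
        ‖Φ z‖ ≤ (‖b‖ / κ + 1) / η + 1 / κ := by
      intro z hz h1 h2
      have a1 := h z hz h1
      have a2 := congrArg norm (Φ1 z hz)
      have a3 := congrArg norm (gH z hz)
      rw [norm_mul] at a2 a3
      have a4 := norm_sub_le (H z) 1
      have a5 := norm_sub_norm_le (g z) b
      have a6 : ‖H z‖ ≤ (‖g z - b‖ + ‖b‖) / κ := by
        rw [le_div_iff₀ κ0]; nlinarith [norm_nonneg (H z)]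
      have y0 : 0 < ‖g z - b‖ := by linarith
      refine le_of_mul_le_mul_right ?_ y0
      have a7 : ‖b‖ / κ + 1 ≤ (‖b‖ / κ + 1) / η * ‖g z - b‖ := by
        rw [div_mul_eq_mul_div, le_div_iff₀ η0]
        exact mul_le_mul_of_nonneg_left h2 (by positivity)
      rw [norm_one] at a4
      rw [add_div] at a6
      rw [add_mul, one_div, ← div_eq_inv_mul]
      linarith
    refine ⟨(‖b‖ / κ + 1) / η + 1 / κ, by positivity, fun z hz => ?_⟩
    by_cases hP : z ∈ P
    · rw [Φ0 z hP, norm_zero]; positivity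
    by_cases h2 : η ≤ ‖g z - b‖
    · exact k1 z hP ((min_le_left _ _).trans (hz.resolve_left hP)) h2
    · obtain ⟨m1, m2⟩ := hc z hP (not_le.1 h2)
      refine maxc hΦ r0 fun w hw => ?_
      have m3 := m1 w (sphere_subset_closedBall hw)
      have m4 := norm_sub_norm_le b (g w)
      rw [norm_sub_rev] at m4
      exact k1 w m3.1 ((min_le_right _ _).trans (by linarith [m3.2])) (m2 w hw)
  obtain ⟨p, hp, p1⟩ := hg.dense h0 hd b η0
  have qd : ∀ z, z ∉ P → ‖g z‖ < ‖b‖ / 4 → ‖H z‖ ≤ 120 / r * ‖z - p‖ ^ 2 := by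
    intro z hz h1
    by_cases e : g z = 0
    · rw [H0 z (Or.inr e), norm_zero]; positivity
    have g0 := norm_pos_iff.2 e
    obtain ⟨κ, κ0, h⟩ := low (‖g z‖ / 2) (by positivity)
    have := ahl hg (p := p) (v := g z) r0 (half_pos g0) κ0 (fun w hw h2 => by
      have a1 := norm_sub_norm_le (g w) (g z)
      have a2 := norm_sub_norm_le (g z) (g w)
      rw [norm_sub_rev] at a2
      refine ⟨not_lt.1 fun h3 => ?_, h w hw (by linarith)⟩
      have a3 := ((hc p hp p1).1 w (mem_closedBall_iff_norm.2 h3.le)).2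
      have a4 := norm_sub_norm_le b (g w)
      rw [norm_sub_rev] at a4
      linarith) hz rfl
    have a1 := norm_pos_iff.2 fun e' => e (ha.ex2 hz e')
    rw [H1 z hz e, norm_div, div_mul_eq_mul_div, div_le_div_iff₀ a1 r0]
    nlinarith
  obtain ⟨K0, K00, hK0⟩ := bd (‖b‖ / 4) (by positivity)
  have gr : ∀ z, 1 ≤ ‖z‖ → ‖Φ z‖ ≤ (K0 + (120 / r * (1 + ‖p‖) ^ 2 + 1) / (‖b‖ / 2)) * ‖z‖ ^ 2 := by
    intro z hz
    have z2 : 1 ≤ ‖z‖ ^ 2 := one_le_pow₀ hz
    have p0 : 0 ≤ (120 / r * (1 + ‖p‖) ^ 2 + 1) / (‖b‖ / 2) := by positivity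
    by_cases h1 : z ∈ P ∨ ‖b‖ / 4 ≤ ‖g z‖
    · nlinarith [hK0 z h1]
    push Not at h1
    have a1 := qd z h1.1 h1.2
    have a2 := congrArg norm (Φ1 z h1.1)
    rw [norm_mul] at a2
    have a3 := norm_sub_le (H z) 1
    rw [norm_one] at a3
    have a4 := norm_sub_norm_le b (g z)
    rw [norm_sub_rev] at a4
    have a5 : ‖z - p‖ ^ 2 ≤ (1 + ‖p‖) ^ 2 * ‖z‖ ^ 2 := by
      rw [← mul_pow]
      exact pow_le_pow_left₀ (norm_nonneg _) (by nlinarith [norm_sub_le z p, norm_nonneg p]) 2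
    have a6 := mul_le_mul_of_nonneg_left a5 (show 0 ≤ 120 / r by positivity)
    have a7 : ‖Φ z‖ ≤ (120 / r * (1 + ‖p‖) ^ 2 + 1) / (‖b‖ / 2) * ‖z‖ ^ 2 := by
      rw [div_mul_eq_mul_div, le_div_iff₀ (by positivity)]
      nlinarith [norm_nonneg (Φ z)]
    nlinarith
  obtain ⟨c0, c1, c2, hc⟩ := pg2 hΦ gr
  by_cases hcc : c1 = 0 ∧ c2 = 0
  · have e1 : ∀ z, z ∉ P → H z = 1 + c0 * (g z - b) := fun z hz => by
      have := Φ1 z hz
      rw [hc, hcc.1, hcc.2] at this
      linear_combination -this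
    by_cases c00 : c0 = 0
    · intro z hz
      rw [gH z hz, e1 z hz, c00]; ring
    exfalso
    by_cases cb : c0 * b = 1
    · obtain ⟨z, hz, h1⟩ := hg.dense h0 hd (b / 2) (half_pos b1)
      by_cases e : g z = 0
      · simp [e] at h1
      · have a1 := gH z hz
        rw [e1 z hz] at a1
        have a2 : deriv g z = b := by
          refine mul_left_cancel₀ e ?_
          linear_combination (-b) * a1 + (b * deriv g z - g z * deriv g z) * cb
        rw [hb.ex2 hz a2, show b - b / 2 = b / 2 by ring] at h1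
        simp at h1
    · obtain ⟨C, C0, hC⟩ := hg.sph hb
      have v0 : b - c0⁻¹ ≠ 0 := fun e => cb (by rw [sub_eq_zero.1 e, mul_inv_cancel₀ c00])
      have hF : ContinuousAt (fun x : ℂ => ‖x‖ - ‖1 + c0 * (x - b)‖ * (C * (1 + ‖x - b‖ ^ 2)))
        (b - c0⁻¹) := by fun_prop
      have e2 : 1 + c0 * (b - c0⁻¹ - b) = 0 := by field_simp; ring
      obtain ⟨θ, θ0, h⟩ := Metric.eventually_nhds_iff.1 (hF.eventually (lt_mem_nhds (a := 0) (by
        simp only [e2, norm_zero, zero_mul, sub_zero]; exact norm_pos_iff.2 v0)))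
      obtain ⟨z, hz, h1⟩ := hg.dense h0 hd (b - c0⁻¹) θ0
      have a1 := h (y := g z) (by rwa [dist_eq_norm])
      have a2 := congrArg norm (gH z hz)
      rw [norm_mul, e1 z hz] at a2
      have a3 := mul_le_mul_of_nonneg_left (hC z hz) (norm_nonneg (1 + c0 * (g z - b)))
      linarith
  exfalso
  have inf : Tendsto (fun z => ‖Φ z‖) (cobounded ℂ) atTop := by
    have := Polynomial.tendsto_norm_atTop (Polynomial.C c0 + Polynomial.C c1 * Polynomial.X +
      Polynomial.C c2 * Polynomial.X ^ 2) (l := cobounded ℂ) (z := id) (by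
        by_contra hh
        push Not at hh
        have e := Polynomial.eq_C_of_degree_le_zero hh
        have d1 := congrArg (Polynomial.coeff · 1) e
        have d2 := congrArg (Polynomial.coeff · 2) e
        simp [Polynomial.coeff_X, Polynomial.coeff_C, Polynomial.coeff_X_pow] at d1 d2
        exact hcc ⟨d1, d2⟩) tendsto_norm_cobounded_atTop
    simpa [hc] using this
  have sm : ∀ ε > 0, ∀ᶠ z in cobounded ℂ, z ∉ P ∧ ‖g z‖ < ε := by
    intro ε hε
    obtain ⟨K, -, hK⟩ := bd ε hε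
    filter_upwards [inf.eventually_gt_atTop K] with z hz
    have : ¬(z ∈ P ∨ ε ≤ ‖g z‖) := fun h => not_le.2 hz (hK z h)
    push Not at this
    exact this
  have g0 : Tendsto g (cobounded ℂ) (𝓝 0) :=
    NormedAddGroup.tendsto_nhds_zero.2 fun ε hε => (sm ε hε).mono fun z hz => hz.2
  obtain ⟨R, -, hR⟩ := (hasBasis_cobounded_norm (E := ℂ)).eventually_iff.1
    ((sm 1 one_pos).and (tendsto_norm_cobounded_atTop.eventually_ge_atTop 1))
  obtain ⟨n0, n1, n2, hn⟩ := pg2 (Φ := fun z => b * Φ z + H z - 1) (by fun_prop) (R := R)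
    (C := K0 + (120 / r * (1 + ‖p‖) ^ 2 + 1) / (‖b‖ / 2)) (fun z hz => by
      obtain ⟨⟨a1, a2⟩, a3⟩ := hR (x := z) hz
      rw [show b * Φ z + H z - 1 = g z * Φ z by linear_combination -Φ1 z a1, norm_mul]
      nlinarith [gr z a3, norm_nonneg (Φ z)])
  have N1 : ∀ z, z ∉ P → g z * (c0 + c1 * z + c2 * z ^ 2) = n0 + n1 * z + n2 * z ^ 2 := fun z hz => by
    rw [← hn, ← hc]; linear_combination Φ1 z hz
  have N2 : ∀ z, z ∉ P → deriv g z * (c0 + c1 * z + c2 * z ^ 2) + g z * (c1 + 2 * c2 * z) =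
      n1 + 2 * n2 * z := by
    intro z hz
    have d : ∀ u0 u1 u2 : ℂ, HasDerivAt (fun z => u0 + u1 * z + u2 * z ^ 2) (u1 + 2 * u2 * z) z := by
      intro u0 u1 u2
      have := (((hasDerivAt_id' z).const_mul u1).const_add u0).fun_add
        (((hasDerivAt_id' z).fun_pow 2).const_mul u2)
      exact this.congr_deriv (by simp; ring)
    exact ((hg.an z hz).differentiableAt.hasDerivAt.fun_mul (d c0 c1 c2)).unique
      ((d n0 n1 n2).congr_of_eventuallyEq ((hg.nb hz).mono N1))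
  have N3 : ∀ z, H z = n0 + n1 * z + n2 * z ^ 2 + 1 - b * (c0 + c1 * z + c2 * z ^ 2) := fun z => by
    rw [← hn, ← hc]; ring
  have ti : Tendsto (fun z : ℂ => z⁻¹) (cobounded ℂ) (𝓝 0) := tendsto_inv₀_cobounded
  have nz : ∀ᶠ z : ℂ in cobounded ℂ, z ≠ 0 :=
    (tendsto_norm_cobounded_atTop.eventually_gt_atTop 0).mono fun z hz => norm_pos_iff.1 hz
  have lim : ∀ u0 u1 u2 : ℂ, Tendsto (fun z : ℂ => u0 * z⁻¹ ^ 2 + u1 * z⁻¹ + u2) (cobounded ℂ)
      (𝓝 u2) := fun u0 u1 u2 => by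
    simpa using (((ti.pow 2).const_mul u0).add (ti.const_mul u1)).add_const u2
  have n20 : n2 = 0 := by
    have := g0.mul (lim c0 c1 c2)
    rw [zero_mul] at this
    refine tendsto_nhds_unique (lim n0 n1 n2) (this.congr' ?_)
    filter_upwards [sm 1 one_pos, nz] with z h1 h2
    field_simp
    linear_combination N1 z h1.1
  subst n20
  have fin : n0 = 0 → n1 = 0 → False := by
    intro e0 e1
    have := coef (a0 := 1 - b * c0) (a1 := -(b * c1)) (a2 := -(b * c2)) (a3 := 0) (a4 := 0) (by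
      filter_upwards [sm 1 one_pos, inf.eventually_gt_atTop 0] with z h1 h2
      have a1 := N1 z h1.1
      rw [← hc, e0, e1] at a1
      have a2 : g z = 0 := by
        refine mul_right_cancel₀ (norm_pos_iff.1 h2) ?_
        rw [a1]; ring
      have a3 := N3 z
      rw [H0 z (Or.inr a2), e0, e1] at a3
      linear_combination -a3)
    simp [b0] at this
    exact hcc this
  by_cases c20 : c2 = 0
  · subst c20
    have c10 : c1 ≠ 0 := fun e => hcc ⟨e, rfl⟩
    have n10 : n1 = 0 := by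
      have := g0.mul (lim 0 c0 c1)
      rw [zero_mul] at this
      refine tendsto_nhds_unique (lim 0 n0 n1) (this.congr' ?_)
      filter_upwards [sm 1 one_pos, nz] with z h1 h2
      field_simp
      linear_combination z * N1 z h1.1
    subst n10
    have n00 : n0 ≠ 0 := fun e => fin e rfl
    have two : ∀ s : ℂ, s ^ 2 = -(n0 * c1) / b → b * s = n0 := by
      intro s hs
      have s0 : s ≠ 0 := by
        rintro rfl
        rw [eq_comm, zero_pow two_ne_zero, div_eq_zero_iff] at hs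
        simp [n00, c10, b0] at hs
      have e : c0 + c1 * ((s - c0) / c1) + 0 * ((s - c0) / c1) ^ 2 = s := by field_simp; ring
      have hz : (s - c0) / c1 ∉ P := fun h => s0 (by rw [← e, ← hc]; exact Φ0 _ h)
      have a1 := N1 _ hz
      have a2 := N2 _ hz
      rw [e] at a1 a2
      rw [eq_div_iff b0] at hs
      have a3 : deriv g ((s - c0) / c1) = b := by
        refine mul_right_cancel₀ (pow_ne_zero 2 s0) ?_
        linear_combination s * a2 - c1 * a1 - hs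
      rw [hb.ex2 hz a3] at a1
      linear_combination a1
    obtain ⟨s, hs⟩ := IsAlgClosed.exists_pow_nat_eq (-(n0 * c1) / b) two_pos
    have u1 := two s hs
    have u2 := two (-s) (by rw [neg_sq]; exact hs)
    exact n00 (by linear_combination -(u1 + u2) / 2)
  · have id1 : ∀ z, z ∉ P → (n0 + n1 * z) * (c0 + c1 * z + c2 * z ^ 2) =
        (n0 + n1 * z + 1 - b * (c0 + c1 * z + c2 * z ^ 2)) *
          (n1 * (c0 + c1 * z + c2 * z ^ 2) - (n0 + n1 * z) * (c1 + 2 * c2 * z)) := by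
      intro z hz
      have a1 := N1 z hz
      have a2 := N2 z hz
      have a3 := gH z hz
      rw [N3] at a3
      generalize c0 + c1 * z + c2 * z ^ 2 = F at *
      have e1 : n0 + n1 * z = g z * F := by linear_combination -a1
      have e2 : n1 = deriv g z * F + g z * (c1 + 2 * c2 * z) := by linear_combination -a2
      have e3 : n1 * F - (n0 + n1 * z) * (c1 + 2 * c2 * z) = deriv g z * F ^ 2 := by
        rw [e1]; linear_combination F * e2
      rw [e3]
      linear_combination F * e1 + F ^ 2 * a3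
    obtain ⟨-, -, k3, k4⟩ := coef
      (a0 := n0 * c0 - (n0 + 1 - b * c0) * (n1 * c0 - n0 * c1))
      (a1 := n0 * c1 + n1 * c0 - ((n0 + 1 - b * c0) * (-2 * n0 * c2) + (n1 - b * c1) * (n1 * c0 - n0 * c1)))
      (a2 := n0 * c2 + n1 * c1 - ((n0 + 1 - b * c0) * (-n1 * c2) + (n1 - b * c1) * (-2 * n0 * c2) +
        (-b * c2) * (n1 * c0 - n0 * c1)))
      (a3 := n1 * c2 - ((n1 - b * c1) * (-n1 * c2) + (-b * c2) * (-2 * n0 * c2)))
      (a4 := -(b * c2 ^ 2 * n1)) (by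
        filter_upwards [sm 1 one_pos] with z h1
        linear_combination id1 z h1.1)
    have n10 : n1 = 0 := by simpa [b0, c20] using k4
    refine fin ?_ n10
    simpa [b0, c20, n10] using k3

lemma cls (hg : Mer g P) {z0 a b : ℂ} (h0 : z0 ∉ P) (hd : deriv g z0 ≠ 0) (ha : Sh g P a)
    (hb : Sh g P b) (hab : a ≠ b) (b0 : b ≠ 0) :
    (∀ z, z ∉ P) ∧ (∀ z, deriv g z = g z) ∧ ∀ z, g z = g 0 * exp z := by
  have h1 : ∀ z, z ∉ P → deriv g z = g z := by
    by_cases a0 : a = 0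
    · exact cls0 hg h0 hd (a0 ▸ ha) hb b0
    · exact cls1 hg h0 hd ha hb hab a0 b0
  have h2 := hg.nop h1
  refine ⟨h2, fun z => h1 z (h2 z), fun z => ?_⟩
  have hD : ∀ x, HasDerivAt (fun x => g x * exp (-x)) 0 x := fun x => by
    have := (hg.an x (h2 x)).differentiableAt.hasDerivAt.fun_mul (hasDerivAt_neg' x).cexp
    exact this.congr_deriv (by rw [h1 x (h2 x)]; ring)
  have := is_const_of_deriv_eq_zero (fun x => (hD x).differentiableAt) (fun x => (hD x).deriv) z 0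
  simp only [neg_zero, exp_zero, mul_one] at this
  rw [← this, mul_assoc, ← exp_add]; simp

end Pool.Agent.H.MP_35e7b7_an
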