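import Mathlib

set_option autoImplicit false

namespace Pool.Agent.H.MP_35e7b7_an
open Filter Topology Metric Set Complex Bornology

lemma mult {F : ℂ → ℂ} {U : Set ℂ} {c u : ℂ} {d M l : ℝ} (hd : 0 < d) (hu : ‖u‖ = 1) (hl : 0 ≤ l)
    (hU : U ⊆ ball c (2 * d)) (hh : ∀ z ∈ U, (u * (z - c)).re ≤ 3 / 2 * d) (hF : DiffContOnCl ℂ F U)
    (h1 : ∀ z ∈ frontier U, ‖F z‖ ≤ M ∧ (‖z - c‖ < 2 * d → ‖F z‖ ≤ M * Real.exp (-(8 * l))))
    (hc : c ∈ U) : ‖F c‖ ≤ M * Real.exp (-l) := by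
  have k1 : ∀ z ∈ closure U, ‖u * (z - c)‖ ≤ 2 * d := fun z hz => by
    rw [norm_mul, hu, one_mul]
    exact mem_closedBall_iff_norm.1 (closure_ball_subset_closedBall (closure_mono hU hz))
  have k2 : ∀ z ∈ closure U, d / 2 ≤ ‖(2 * d : ℝ) - u * (z - c)‖ := fun z hz => by
    have : (u * (z - c)).re ≤ 3 / 2 * d :=
      closure_minimal (t := {z | (u * (z - c)).re ≤ 3 / 2 * d}) hh
        (isClosed_le (by fun_prop) continuous_const) hz
    refine le_trans ?_ (re_le_norm _)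
    rw [sub_re, ofReal_re]; linarith
  have k3 : ∀ z ∈ closure U, ((2 * d : ℝ) : ℂ) - u * (z - c) ≠ 0 := fun z hz =>
    norm_pos_iff.1 (by linarith [k2 z hz])
  obtain ⟨E, hE⟩ : ∃ E : ℂ → ℂ, E = fun z =>
    exp (l * (((2 * d : ℝ) + u * (z - c)) / ((2 * d : ℝ) - u * (z - c)))) := ⟨_, rfl⟩
  have hD : ∀ z ∈ closure U, DifferentiableAt ℂ E z := fun z hz => by
    rw [hE]
    have := k3 z hz
    fun_prop (disch := assumption)
  have nE : ∀ z, ‖E z‖ =
      Real.exp (l * (((2 * d : ℝ) + u * (z - c)) / ((2 * d : ℝ) - u * (z - c))).re) := fun z => by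
    rw [hE]; simp only [norm_exp, re_ofReal_mul]
  have := norm_le_of_forall_mem_frontier_norm_le (f := fun z => F z * E z) (C := M)
    (isBounded_ball.subset hU)
    ⟨hF.1.mul fun z hz => (hD z (subset_closure hz)).differentiableWithinAt,
      hF.2.mul fun z hz => (hD z hz).continuousAt.continuousWithinAt⟩ (fun z hz => by
      have hz' := frontier_subset_closure hz
      obtain ⟨a1, a2⟩ := h1 z hz
      rw [norm_mul, nE]
      have b1 := k1 z hz'
      have b2 := k2 z hz'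
      have b3 := k3 z hz'
      by_cases e : ‖z - c‖ < 2 * d
      · have b4 : (((2 * d : ℝ) + u * (z - c)) / ((2 * d : ℝ) - u * (z - c))).re ≤ 8 := by
          refine (re_le_norm _).trans ?_
          rw [norm_div, div_le_iff₀ (by linarith)]
          have := norm_add_le ((2 * d : ℝ) : ℂ) (u * (z - c))
          rw [norm_real, Real.norm_eq_abs, abs_of_pos (by linarith)] at this
          linarith
        calc _ ≤ M * Real.exp (-(8 * l)) * Real.exp (8 * l) :=
              mul_le_mul (a2 e) (Real.exp_le_exp.2 (by nlinarith)) (by positivity)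
                ((norm_nonneg _).trans (a2 e))
          _ = M := by rw [mul_assoc, ← Real.exp_add]; simp
      · have b4 : ‖u * (z - c)‖ = 2 * d := le_antisymm b1 (by rw [norm_mul, hu, one_mul]; linarith)
        have b5 : (((2 * d : ℝ) + u * (z - c)) / ((2 * d : ℝ) - u * (z - c))).re = 0 := by
          generalize u * (z - c) = ζ at *
          have b6 : ζ.re * ζ.re + ζ.im * ζ.im = (2 * d) ^ 2 := by
            rw [← b4, Complex.sq_norm, normSq_apply]
          rw [div_re, ← add_div, div_eq_zero_iff]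
          left
          simp only [add_re, ofReal_re, sub_re, add_im, ofReal_im, sub_im]
          linarith
        rw [b5]; simpa using a1) (subset_closure hc)
  rw [norm_mul, nE, sub_self, mul_zero, add_zero, sub_zero,
    div_self (ofReal_ne_zero.2 (by linarith)), one_re, mul_one] at this
  rw [Real.exp_neg, ← div_eq_mul_inv, le_div_iff₀ (Real.exp_pos _)]
  exact this

lemma cut {F : ℂ → ℂ} {Ω : Set ℂ} (hΩ : IsOpen Ω) {χ : ℂ → ℝ} (hχ : Continuous χ) {c u : ℂ}
    {d M l : ℝ} (hd : 0 < d) (hu : ‖u‖ = 1) (hl : 0 ≤ l)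
    (hh : ∀ z ∈ ball c (2 * d), χ z < 0 → (u * (z - c)).re ≤ 3 / 2 * d)
    (hF : ∀ z ∈ closedBall c (2 * d), z ∈ closure Ω → DifferentiableAt ℂ F z ∧ ‖F z‖ ≤ M ∧
      ((χ z = 0 ∨ z ∉ Ω) → ‖F z‖ ≤ M * Real.exp (-(8 * l)))) (hc : c ∈ Ω) (hc' : χ c < 0) :
    ‖F c‖ ≤ M * Real.exp (-l) := by
  have ho : IsOpen (ball c (2 * d) ∩ {z | χ z < 0} ∩ Ω) :=
    (isOpen_ball.inter (isOpen_lt hχ continuous_const)).inter hΩ
  have hcl : ∀ z ∈ closure (ball c (2 * d) ∩ {z | χ z < 0} ∩ Ω),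
      z ∈ closedBall c (2 * d) ∧ χ z ≤ 0 ∧ z ∈ closure Ω := fun z hz =>
    ⟨closure_ball_subset_closedBall (closure_mono (fun _ h => h.1.1) hz),
      closure_minimal (fun _ h => le_of_lt h.1.2) (isClosed_le hχ continuous_const) hz,
      closure_mono (fun _ h => h.2) hz⟩
  refine mult (U := ball c (2 * d) ∩ {z | χ z < 0} ∩ Ω) hd hu hl (fun _ h => h.1.1)
    (fun z hz => hh z hz.1.1 hz.1.2) (DifferentiableOn.diffContOnCl fun z hz =>
      (hF z (hcl z hz).1 (hcl z hz).2.2).1.differentiableWithinAt) (fun z hz => ?_)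
    ⟨⟨mem_ball_self (by linarith), hc'⟩, hc⟩
  rw [ho.frontier_eq] at hz
  obtain ⟨a1, a2, a3⟩ := hcl z hz.1
  refine ⟨(hF z a1 a3).2.1, fun e => (hF z a1 a3).2.2 ?_⟩
  by_contra hn
  push Not at hn
  exact hz.2 ⟨⟨mem_ball_iff_norm.2 e, lt_of_le_of_ne a2 hn.1⟩, hn.2⟩

lemma curve {w : ℕ → ℂ} (hw : ∀ k, 5 ≤ (w (k + 1)).im - (w k).im ∧ (w (k + 1)).im - (w k).im ≤ 7 ∧
    |(w (k + 1)).re - (w k).re| ≤ 1 / 2) : ∃ γ : ℝ → ℝ, Continuous γ ∧
      (∀ t, |γ t| ≤ |(w 0).re| + |(w 0).im| + |t| / 10) ∧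
      ∀ K, ∀ z : ℂ, (w K).im ≤ z.im → z.re = γ z.im → ∃ k, K ≤ k ∧ ‖z - w k‖ ≤ 10 := by
  have l1 : ∀ j n : ℕ, |(w (j + n)).re - (w j).re| ≤ ((w (j + n)).im - (w j).im) / 10 ∧
      5 * n ≤ (w (j + n)).im - (w j).im := by
    intro j n
    induction n with
    | zero => simp
    | succ n ih =>
      obtain ⟨a1, -, a3⟩ := hw (j + n)
      rw [← add_assoc]
      have := abs_sub_le (w (j + n + 1)).re (w (j + n)).re (w j).re
      push_cast
      constructor <;> linarith [ih.1, ih.2]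
  have l2 : ∀ j k : ℕ, |(w j).re - (w k).re| ≤ |(w j).im - (w k).im| / 10 := by
    intro j k
    rcases le_total j k with h | h
    · obtain ⟨n, rfl⟩ := Nat.exists_eq_add_of_le h
      rw [abs_sub_comm, abs_sub_comm (w j).im]
      linarith [(l1 j n).1, le_abs_self ((w (j + n)).im - (w j).im)]
    · obtain ⟨n, rfl⟩ := Nat.exists_eq_add_of_le h
      linarith [(l1 k n).1, le_abs_self ((w (k + n)).im - (w k).im)]
  have l3 : ∀ t j k, (w k).re - |t - (w k).im| / 10 ≤ (w j).re + |t - (w j).im| / 10 := by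
    intro t j k
    have a1 := abs_sub_le (w k).im t (w j).im
    rw [abs_sub_comm (w k).im t] at a1
    linarith [l2 k j, le_abs_self ((w k).re - (w j).re)]
  obtain ⟨γ, hγ⟩ : ∃ γ : ℝ → ℝ, γ = fun t => ⨅ j, ((w j).re + |t - (w j).im| / 10) := ⟨_, rfl⟩
  have up : ∀ t k, γ t ≤ (w k).re + |t - (w k).im| / 10 := fun t k => by
    rw [hγ]
    exact ciInf_le ⟨_, by rintro _ ⟨j, rfl⟩; exact l3 t j 0⟩ k
  have lo : ∀ t k, (w k).re - |t - (w k).im| / 10 ≤ γ t := fun t k => by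
    rw [hγ]
    exact le_ciInf fun j => l3 t j k
  have lp : ∀ t s, γ t - |t - s| / 10 ≤ γ s := fun t s => by
    conv_rhs => rw [hγ]
    refine le_ciInf fun j => ?_
    linarith [up t j, abs_sub_le t s (w j).im]
  refine ⟨γ, ?_, fun t => ?_, fun K z h1 h2 => ?_⟩
  · refine (LipschitzWith.of_le_add fun t s => ?_).continuous
    rw [Real.dist_eq]
    linarith [lp t s, abs_nonneg (t - s)]
  · have a1 := abs_sub t (w 0).im
    rw [abs_le]
    constructor <;> linarith [up t 0, lo t 0, le_abs_self (w 0).re, neg_abs_le (w 0).re,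
      abs_nonneg (w 0).im]
  · have ex : ∃ n, z.im < (w (K + n + 1)).im := by
      obtain ⟨n, hn⟩ := exists_nat_gt (z.im - (w K).im)
      refine ⟨n, ?_⟩
      have a1 := (l1 K n).2
      have a2 := (hw (K + n)).1
      have : (0:ℝ) ≤ n := n.cast_nonneg
      linarith
    classical
    have a1 := Nat.find_spec ex
    have a2 : (w (K + Nat.find ex)).im ≤ z.im := by
      rcases h : Nat.find ex with _ | m
      · exact h1
      · exact not_lt.1 (Nat.find_min ex (by omega : m < Nat.find ex))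
    refine ⟨K + Nat.find ex, Nat.le_add_right _ _, ?_⟩
    generalize K + Nat.find ex = k at *
    have a3 : |z.im - (w k).im| ≤ 7 := by
      rw [abs_le]; constructor <;> linarith [(hw k).2.1]
    refine (norm_le_abs_re_add_abs_im _).trans ?_
    have a4 : |z.re - (w k).re| ≤ 1 := by
      rw [abs_le, h2]; constructor <;> linarith [up z.im k, lo z.im k]
    rw [sub_re, sub_im]
    linarith

lemma lind {Ψ : ℂ → ℂ} {Ω : Set ℂ} (hΩ : IsOpen Ω) {R0 M0 : ℝ} {w : ℕ → ℂ}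
    (hD : ∀ z ∈ closure Ω, R0 ≤ ‖z‖ → DifferentiableAt ℂ Ψ z ∧ ‖Ψ z‖ ≤ M0)
    (hf : ∀ ε > 0, ∃ R, ∀ z ∈ closure Ω, z ∉ Ω → R ≤ ‖z‖ → ‖Ψ z‖ ≤ ε)
    (hw : ∀ k, 5 ≤ (w (k + 1)).im - (w k).im ∧ (w (k + 1)).im - (w k).im ≤ 7 ∧
      |(w (k + 1)).re - (w k).re| ≤ 1 / 2)
    (hc : ∀ ε > 0, ∃ K, ∀ k, K ≤ k → ∀ z ∈ closure Ω, ‖z - w k‖ ≤ 10 → ‖Ψ z‖ ≤ ε) :
    ∀ ε > 0, ∃ R, ∀ z ∈ closure Ω, R ≤ ‖z‖ → ‖Ψ z‖ ≤ ε := by
  obtain ⟨γ, g1, g2, g3⟩ := curve hw
  have step : ∀ M > 0, (∃ R, ∀ z ∈ closure Ω, R ≤ ‖z‖ → ‖Ψ z‖ ≤ M) →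
      ∃ R, ∀ z ∈ closure Ω, R ≤ ‖z‖ → ‖Ψ z‖ ≤ M * Real.exp (-(1 / 8)) := by
    rintro M M0 ⟨R1, h1⟩
    obtain ⟨R2, h2⟩ := hf (M * Real.exp (-(8 * 1))) (by positivity)
    obtain ⟨K, h3⟩ := hc (M * Real.exp (-(8 * 1))) (by positivity)
    have m1 : M * Real.exp (-(8 * 1)) ≤ M * Real.exp (-1) :=
      mul_le_mul_of_nonneg_left (Real.exp_le_exp.2 (by norm_num)) M0.le
    have m2 : M * Real.exp (-1) ≤ M * Real.exp (-(1 / 8)) :=
      mul_le_mul_of_nonneg_left (Real.exp_le_exp.2 (by norm_num)) M0.le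
    obtain ⟨Y, y0, y1, y2, y3, y4, y5⟩ : ∃ Y : ℝ, 0 < Y ∧ R0 ≤ Y ∧ R1 ≤ Y ∧ R2 ≤ Y ∧ (w K).im ≤ Y ∧
        5 * (|(w 0).re| + |(w 0).im|) ≤ Y := by
      obtain ⟨Y, hY⟩ := ((eventually_gt_atTop 0).and ((eventually_ge_atTop R0).and
        ((eventually_ge_atTop R1).and ((eventually_ge_atTop R2).and ((eventually_ge_atTop (w K).im).and
        (eventually_ge_atTop (5 * (|(w 0).re| + |(w 0).im|)))))))).exists
      exact ⟨Y, hY⟩
    have s1 : ∀ t : ℝ, 2 * Y ≤ t → (t:ℂ) * I ∈ closure Ω → ‖Ψ (t * I)‖ ≤ M * Real.exp (-1) := by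
      intro t ht hz
      have nb : ∀ z ∈ closedBall ((t:ℂ) * I) (2 * (t / 4)), Y ≤ z.im ∧ z.im ≤ 3 / 2 * t ∧ Y ≤ ‖z‖ := by
        intro z hz
        have a1 := (abs_im_le_norm _).trans (mem_closedBall_iff_norm.1 hz)
        simp only [sub_im, mul_im, ofReal_re, I_im, ofReal_im, I_re, mul_one, mul_zero,
          add_zero] at a1
        obtain ⟨a2, a3⟩ := abs_le.1 a1
        exact ⟨by linarith, by linarith, by linarith [im_le_norm z]⟩
      have cv : ∀ z ∈ closedBall ((t:ℂ) * I) (2 * (t / 4)), z ∈ closure Ω → z.re = γ z.im →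
          ‖Ψ z‖ ≤ M * Real.exp (-(8 * 1)) := fun z hz h e => by
        obtain ⟨k, k1, k2⟩ := g3 K z (y4.trans (nb z hz).1) e
        exact h3 k k1 z h k2
      have c0 : (t:ℂ) * I ∈ closedBall ((t:ℂ) * I) (2 * (t / 4)) := mem_closedBall_self (by linarith)
      by_cases hΩ' : (t:ℂ) * I ∉ Ω
      · exact (h2 _ hz hΩ' (y3.trans (nb _ c0).2.2)).trans m1
      push Not at hΩ'
      have gen : ∀ σ : ℝ, |σ| = 1 → σ * (((t:ℂ) * I).re - γ ((t:ℂ) * I).im) < 0 →
          ‖Ψ (t * I)‖ ≤ M * Real.exp (-1) := by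
        intro σ hσ hs
        have σ0 : σ ≠ 0 := by rintro rfl; simp at hσ
        refine cut hΩ (χ := fun z => σ * (z.re - γ z.im)) (by fun_prop) (u := σ) (d := t / 4)
          (by linarith) (by simpa using hσ) zero_le_one (fun z hz h => ?_) (fun z hz h => ?_) hΩ' hs
        · obtain ⟨a1, a2, -⟩ := nb z (ball_subset_closedBall hz)
          have a3 := g2 z.im
          rw [abs_of_pos (a := z.im) (by linarith)] at a3
          have a4 := le_abs_self (σ * γ z.im)
          rw [abs_mul, hσ, one_mul] at a4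
          simp only [re_ofReal_mul, sub_re, I_re, mul_zero, sub_zero]
          linarith
        · obtain ⟨a1, a2, a3⟩ := nb z hz
          refine ⟨(hD z h (y1.trans a3)).1, h1 z h (y2.trans a3), ?_⟩
          rintro (e | e)
          · exact cv z hz h (sub_eq_zero.1 ((mul_eq_zero.1 e).resolve_left σ0))
          · exact h2 z h e (y3.trans a3)
      rcases lt_trichotomy (((t:ℂ) * I).re - γ ((t:ℂ) * I).im) 0 with e | e | e
      · exact gen 1 abs_one (by linarith)
      · exact (cv _ c0 hz (sub_eq_zero.1 e)).trans m1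
      · exact gen (-1) (by simp) (by linarith)
    refine ⟨2 * Y * Real.exp 16, fun z hz hR => ?_⟩
    have e1 : 1 ≤ Real.exp 16 := Real.one_le_exp (by norm_num)
    by_cases hΩ' : z ∉ Ω
    · exact ((h2 z hz hΩ' (by nlinarith)).trans m1).trans m2
    push Not at hΩ'
    have z0 : z ≠ 0 := norm_pos_iff.1 (by nlinarith)
    have := cut (F := fun s => Ψ (exp s)) (hΩ.preimage continuous_exp)
      (χ := fun s => s.im - 5 / 2 * Real.pi) (by fun_prop) (c := log z) (u := -I) (d := 8) (M := M)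
      (l := 1 / 8) (by norm_num) (by simp) (by norm_num) (fun s _ h => by
        have a1 := neg_pi_lt_log_im z
        simp only [neg_mul, neg_re, mul_re, I_re, I_im, zero_mul, one_mul, sub_im, zero_sub, neg_neg]
        linarith [Real.pi_lt_d2]) (fun s hs h => by
        have h' : exp s ∈ closure Ω := continuous_exp.closure_preimage_subset Ω h
        have a1 := (abs_re_le_norm _).trans (mem_closedBall_iff_norm.1 hs)
        rw [sub_re, log_re] at a1
        have a2 : 2 * Y ≤ Real.exp s.re := by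
          have b1 : Real.log ‖z‖ - 16 ≤ s.re := by linarith [(abs_le.1 a1).1]
          refine le_trans ?_ (Real.exp_le_exp.2 b1)
          rw [Real.exp_sub, Real.exp_log (norm_pos_iff.2 z0), le_div_iff₀ (by positivity)]
          exact hR
        have a3 : Y ≤ ‖exp s‖ := by rw [norm_exp]; linarith
        refine ⟨(hD _ h' (y1.trans a3)).1.comp s differentiableAt_exp, h1 _ h' (y2.trans a3), ?_⟩
        rw [show (8:ℝ) * (1 / 8) = 1 by norm_num]
        rintro (e | e)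
        · have b1 : exp s = (Real.exp s.re : ℂ) * I := by
            conv_lhs => rw [← re_add_im s, sub_eq_zero.1 e]
            rw [exp_add, ofReal_exp, show ((5 / 2 * Real.pi : ℝ) : ℂ) * I =
              Real.pi / 2 * I + 2 * Real.pi * I by push_cast; ring, exp_add, exp_two_pi_mul_I,
              exp_pi_div_two_mul_I, mul_one]
          rw [b1] at h' ⊢
          exact s1 _ a2 h'
        · exact (h2 _ h' e (y3.trans a3)).trans m1)
      (by rw [mem_preimage, exp_log z0]; exact hΩ') (by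
        have := log_im_le_pi z
        linarith [Real.pi_pos])
    rwa [exp_log z0] at this
  have it : ∀ n : ℕ, ∃ R, ∀ z ∈ closure Ω, R ≤ ‖z‖ → ‖Ψ z‖ ≤ (|M0| + 1) * Real.exp (-(1 / 8)) ^ n := by
    intro n
    induction n with
    | zero => exact ⟨R0, fun z h1 h2 => by simp; linarith [(hD z h1 h2).2, le_abs_self M0]⟩
    | succ n ih => simpa only [pow_succ, mul_assoc] using step _ (by positivity) ih
  intro ε hε
  have := (tendsto_pow_atTop_nhds_zero_of_lt_one (Real.exp_pos (-(1 / 8))).le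
    (Real.exp_lt_one_iff.2 (by norm_num))).const_mul (|M0| + 1)
  rw [mul_zero] at this
  obtain ⟨n, hn⟩ := (this.eventually (gt_mem_nhds hε)).exists
  obtain ⟨R, hR⟩ := it n
  exact ⟨R, fun z h1 h2 => (hR z h1 h2).trans hn.le⟩

end Pool.Agent.H.MP_35e7b7_an
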