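import Pool.Agent.H.MP_35e7b7_an.D
import Pool.Agent.Lib.helper9.RMT

set_option autoImplicit false

namespace Pool.Agent.H.MP_35e7b7_an
open Filter Topology Metric Set Complex Bornology

variable {f : ℂ → ℂ} {P : Set ℂ}

lemma mte (l : Ultrafilter ℕ) {U : Set ℂ} (hU : IsOpen U) {F : ℕ → ℂ → ℂ} {M : ℝ} (M0 : 0 ≤ M)
    (h : ∀ᶠ n in l, DifferentiableOn ℂ (F n) U ∧ ∀ z ∈ U, ‖F n z‖ ≤ M) :
    ∃ ψ, AnalyticOnNhd ℂ ψ U ∧ ∀ z ∈ U, ∀ ζ : ℕ → ℂ, Tendsto ζ l (𝓝 z) →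
      Tendsto (fun n => F n (ζ n)) l (𝓝 (ψ z)) ∧
      Tendsto (fun n => deriv (F n) (ζ n)) l (𝓝 (deriv ψ z)) := by
  classical
  obtain ⟨G, hG⟩ : ∃ G : ℕ → ℂ → ℂ, G = fun n =>
    if DifferentiableOn ℂ (F n) U ∧ ∀ z ∈ U, ‖F n z‖ ≤ M then F n else fun _ => 0 := ⟨_, rfl⟩
  have h1 : ∀ n, DifferentiableOn ℂ (G n) U ∧ ∀ z ∈ U, ‖G n z‖ ≤ M := fun n => by
    rw [hG]
    beta_reduce
    split_ifs with hn
    · exact hn
    · exact ⟨differentiableOn_const _, fun _ _ => by simpa using M0⟩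
  have h2 : ∀ᶠ n in l, G n = F n := h.mono fun n hn => by rw [hG]; exact if_pos hn
  obtain ⟨ψ, hψ⟩ := Pool.Agent.Lib.helper9.RMT.montel l hU (fun n => (h1 n).1) (fun n => (h1 n).2)
  have hd : DifferentiableOn ℂ ψ U := hψ.differentiableOn (Eventually.of_forall fun n => (h1 n).1) hU
  have ha := hd.analyticOnNhd hU
  refine ⟨ψ, ha, fun z hz ζ hζ => ⟨?_, ?_⟩⟩
  · refine (hψ.tendsto_comp (hd.continuousOn z hz) hz (by rw [hU.nhdsWithin_eq hz]; exact hζ)).congr' ?_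
    exact h2.mono fun n hn => by simp only [hn]
  · refine ((hψ.deriv (Eventually.of_forall fun n => (h1 n).1) hU).tendsto_comp
      (ha.deriv.continuousOn z hz) hz (by rw [hU.nhdsWithin_eq hz]; exact hζ)).congr' ?_
    exact h2.mono fun n hn => by simp only [Function.comp, hn]

lemma lim (hf : Mer f P) {b : ℂ} {δ θ r R : ℝ} (δ0 : 0 < δ) (θ0 : 0 < θ) (r0 : 0 < r)
    (hd : ∀ z0, R ≤ ‖z0‖ → (∀ w ∈ ball z0 r, w ∉ P ∧ ‖f w - b‖ < δ) ∨
      (∀ w ∈ ball z0 r, w ∉ P → θ ≤ ‖f w - b‖))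
    (l : Ultrafilter ℕ) {s : ℕ → ℂ} (hs : Tendsto (fun n => ‖s n‖) l atTop) :
    ∃ g Q, (∀ z, z ∉ Q → ∀ ζ : ℕ → ℂ, Tendsto ζ l (𝓝 z) → (∀ᶠ n in l, s n + ζ n ∉ P) ∧
        Tendsto (fun n => f (s n + ζ n)) l (𝓝 (g z)) ∧
        Tendsto (fun n => deriv f (s n + ζ n)) l (𝓝 (deriv g z))) ∧
      ((∃ z, z ∉ Q) → Mer g Q) ∧ ∀ z ∈ Q, ∀ L, ∀ᶠ n in l, s n + z ∈ P ∨ L ≤ ‖f (s n + z)‖ := by
  obtain ⟨g, hg⟩ : ∃ g : ℂ → ℂ, g = fun z => limUnder l fun n => f (s n + z) := ⟨_, rfl⟩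
  have eg : ∀ z c, Tendsto (fun n => f (s n + z)) l (𝓝 c) → g z = c := fun z c h => by
    rw [hg]; exact h.limUnder_eq
  obtain ⟨Q, hQ⟩ : ∃ Q : Set ℂ, Q = {z | ∀ L, ∀ᶠ n in l, s n + z ∈ P ∨ L ≤ ‖f (s n + z)‖} := ⟨_, rfl⟩
  have mQ : ∀ z, z ∈ Q ↔ ∀ L, ∀ᶠ n in l, s n + z ∈ P ∨ L ≤ ‖f (s n + z)‖ := fun z => by rw [hQ]; rfl
  obtain ⟨Gd, hGd⟩ : ∃ Gd : ℂ → Prop, Gd = fun z => AnalyticAt ℂ g z ∧ ∀ ζ : ℕ → ℂ,
    Tendsto ζ l (𝓝 z) → (∀ᶠ n in l, s n + ζ n ∉ P) ∧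
        Tendsto (fun n => f (s n + ζ n)) l (𝓝 (g z)) ∧
        Tendsto (fun n => deriv f (s n + ζ n)) l (𝓝 (deriv g z)) := ⟨_, rfl⟩
  have tr : ∀ a z0 w : ℂ, w ∈ ball z0 r → a + w ∈ ball (a + z0) r := fun a z0 w hw => by
    simpa using hw
  have dich : ∀ z0, (∀ z ∈ ball z0 r, z ∉ Q ∧ Gd z) ∨ ∃ k, AnalyticOnNhd ℂ k (ball z0 r) ∧
      ∀ z ∈ ball z0 r, (k z = 0 ↔ z ∈ Q) ∧ (k z ≠ 0 → g z = b + (k z)⁻¹ ∧ Gd z) := by
    intro z0
    have h1 := (hs.eventually_ge_atTop (R + ‖z0‖)).mono fun n hn => hd (s n + z0) (by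
      have := norm_sub_le (s n + z0) z0
      rw [add_sub_cancel_right] at this
      linarith)
    rcases Ultrafilter.eventually_or.1 h1 with h2 | h2
    · left
      obtain ⟨ψ, a1, a2⟩ := mte l isOpen_ball (U := ball z0 r) (F := fun n w => f (s n + w))
        (M := ‖b‖ + δ) (by positivity) (h2.mono fun n hn => ⟨fun w hw =>
          ((hf.an _ (hn _ (tr _ _ _ hw)).1).differentiableAt.comp w
            (by fun_prop)).differentiableWithinAt, fun w hw => by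
          linarith [(hn _ (tr _ _ _ hw)).2, norm_sub_norm_le (f (s n + w)) b]⟩)
      have a3 : ∀ z ∈ ball z0 r, g z = ψ z := fun z hz => eg z _ (a2 z hz _ tendsto_const_nhds).1
      intro z hz
      have a4 : g =ᶠ[𝓝 z] ψ := Filter.mem_of_superset (isOpen_ball.mem_nhds hz) a3
      refine ⟨fun hzQ => ?_, ?_⟩
      · obtain ⟨n, n1, n2⟩ := (h2.and ((mQ z).1 hzQ (‖b‖ + δ))).exists
        obtain ⟨n3, n4⟩ := n1 _ (tr _ _ _ hz)
        linarith [n2.resolve_left n3, norm_sub_norm_le (f (s n + z)) b]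
      · rw [hGd]
        refine ⟨(a1 z hz).congr a4.symm, fun ζ hζ => ⟨?_, ?_, ?_⟩⟩
        · filter_upwards [h2, hζ.eventually (isOpen_ball.mem_nhds hz)] with n n1 n2
          exact (n1 _ (tr _ _ _ n2)).1
        · rw [a3 z hz]; exact (a2 z hz ζ hζ).1
        · rw [a4.deriv_eq]
          simpa only [deriv_comp_const_add] using (a2 z hz ζ hζ).2
    · right
      obtain ⟨k, a1, a2⟩ := mte l isOpen_ball (U := ball z0 r) (F := fun n w => iv f P b (s n + w))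
        (M := θ⁻¹) (by positivity) (h2.mono fun n hn => ⟨fun w hw =>
          ((hf.ivb θ0 hn _ (tr _ _ _ hw)).1.differentiableAt.comp w
            (by fun_prop)).differentiableWithinAt, fun w hw => (hf.ivb θ0 hn _ (tr _ _ _ hw)).2⟩)
      have a3 : ∀ z ∈ ball z0 r, k z ≠ 0 → ∀ ζ : ℕ → ℂ, Tendsto ζ l (𝓝 z) →
          (∀ᶠ n in l, s n + ζ n ∉ P) ∧ Tendsto (fun n => f (s n + ζ n)) l (𝓝 (b + (k z)⁻¹)) ∧
          Tendsto (fun n => deriv f (s n + ζ n)) l (𝓝 (-deriv k z / k z ^ 2)) := by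
        intro z hz hk ζ hζ
        obtain ⟨c1, c2⟩ := a2 z hz ζ hζ
        have c3 : ∀ᶠ n in l, s n + ζ n ∉ P :=
          (c1.eventually_ne hk).mono fun n hn h => hn (iv_of_mem h)
        refine ⟨c3, ((c1.inv₀ hk).const_add b).congr' (c3.mono fun n hn => ?_),
          (c2.neg.div (c1.pow 2) (pow_ne_zero 2 hk)).congr' ?_⟩
        · simp [iv_of_not hn]
        · filter_upwards [c3, c1.eventually_ne hk] with n n1 n2
          rw [iv_of_not n1] at n2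
          have n3 : f (s n + ζ n) - b ≠ 0 := fun e => n2 (by rw [e, inv_zero])
          simp only [Pi.div_apply, deriv_comp_const_add]
          rw [hf.iv_deriv n1 (sub_ne_zero.1 n3), iv_of_not n1]
          field_simp
      have a4 : ∀ z ∈ ball z0 r, k z ≠ 0 → g z = b + (k z)⁻¹ := fun z hz hk =>
        eg z _ (a3 z hz hk _ tendsto_const_nhds).2.1
      refine ⟨k, a1, fun z hz => ⟨⟨fun hk => (mQ z).2 fun L => ?_, fun hzQ => ?_⟩, fun hk =>
        ⟨a4 z hz hk, ?_⟩⟩⟩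
      · have c1 := (a2 z hz _ tendsto_const_nhds).1
        rw [hk] at c1
        have p : 0 < |L| + ‖b‖ + 1 := by positivity
        filter_upwards [h2, NormedAddGroup.tendsto_nhds_zero.1 c1 _ (inv_pos.2 p)] with n n1 n2
        refine or_iff_not_imp_left.2 fun hP => ?_
        have n3 := n1 _ (tr _ _ _ hz) hP
        rw [iv_of_not hP, norm_inv, inv_lt_inv₀ (by linarith) p] at n2
        linarith [norm_sub_le (f (s n + z)) b, le_abs_self L]
      · by_contra hk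
        obtain ⟨c1, c2, -⟩ := a3 z hz hk _ tendsto_const_nhds
        obtain ⟨n, n1, n2, n3⟩ := (c1.and (((mQ z).1 hzQ _).and
          (c2.norm.eventually (gt_mem_nhds (lt_add_one _))))).exists
        exact not_le.2 n3 (n2.resolve_left n1)
      · have c1 : g =ᶠ[𝓝 z] fun w => b + (k w)⁻¹ := by
          filter_upwards [isOpen_ball.mem_nhds hz, (a1 z hz).continuousAt.eventually_ne hk] with w w1 w2
          exact a4 w w1 w2
        rw [hGd]
        refine ⟨(analyticAt_const.add ((a1 z hz).inv hk)).congr c1.symm, fun ζ hζ => ?_⟩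
        rw [c1.deriv_eq, a4 z hz hk,
          (((a1 z hz).differentiableAt.hasDerivAt.fun_inv hk).const_add b).deriv]
        exact a3 z hz hk ζ hζ
  have gd : ∀ z, z ∉ Q → Gd z := fun z hz => by
    rcases dich z with h | ⟨k, -, h⟩
    · exact (h z (mem_ball_self r0)).2
    · exact ((h z (mem_ball_self r0)).2 fun e => hz ((h z (mem_ball_self r0)).1.1 e)).2
  rw [hGd] at gd
  refine ⟨g, Q, fun z hz => (gd z hz).2, ?_, fun z hz => (mQ z).1 hz⟩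
  rintro ⟨z1, hz1⟩
  have dB : ∀ z ∈ Q, ∃ k, AnalyticOnNhd ℂ k (ball z r) ∧
      ∀ w ∈ ball z r, (k w = 0 ↔ w ∈ Q) ∧ (k w ≠ 0 → g w = b + (k w)⁻¹ ∧ Gd w) := fun z hz =>
    (dich z).resolve_left fun h => (h z (mem_ball_self r0)).1 hz
  have cl : IsClosed Q := by
    rw [← isOpen_compl_iff, isOpen_iff_mem_nhds]
    intro z hz
    rcases dich z with h | ⟨k, a1, h⟩
    · exact Filter.mem_of_superset (ball_mem_nhds z r0) fun w hw => (h w hw).1
    · filter_upwards [ball_mem_nhds z r0, (a1 z (mem_ball_self r0)).continuousAt.eventually_ne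
        (y := 0) fun e => hz ((h z (mem_ball_self r0)).1.1 e)] with w w1 w2 w3
      exact w2 ((h w w1).1.2 w3)
  have hZ : IsClopen (interior Q) := by
    refine ⟨isClosed_of_closure_subset fun x hx => ?_, isOpen_interior⟩
    obtain ⟨k, a1, h⟩ := dB x (closure_minimal interior_subset cl hx)
    obtain ⟨y, y1, y2⟩ := mem_closure_iff_nhds.1 hx _ (ball_mem_nhds x r0)
    have := a1.eqOn_zero_of_preconnected_of_eventuallyEq_zero (convex_ball x r).isPreconnected y1 (by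
      filter_upwards [mem_interior_iff_mem_nhds.1 y2, isOpen_ball.mem_nhds y1] with w w1 w2
      exact (h w w2).1.2 w1)
    exact mem_interior_iff_mem_nhds.2 (Filter.mem_of_superset (ball_mem_nhds x r0) fun w hw =>
      (h w hw).1.1 (this hw))
  have hE : interior Q = ∅ := (isClopen_iff.1 hZ).resolve_right fun e =>
    hz1 (interior_subset (e ▸ mem_univ z1 : z1 ∈ interior Q))
  have iso : ∀ z ∈ Q, ∀ᶠ w in 𝓝[≠] z, w ∉ Q := fun z hz => by
    obtain ⟨k, a1, h⟩ := dB z hz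
    rcases (a1 z (mem_ball_self r0)).eventually_eq_zero_or_eventually_ne_zero with e | e
    · have : z ∈ interior Q := mem_interior_iff_mem_nhds.2 (by
        filter_upwards [e, ball_mem_nhds z r0] with w w1 w2
        exact (h w w2).1.1 w1)
      rw [hE] at this
      exact absurd this (notMem_empty z)
    · filter_upwards [e, mem_nhdsWithin_of_mem_nhds (ball_mem_nhds z r0)] with w w1 w2 w3
      exact w1 ((h w w2).1.2 w3)
  refine ⟨fun z hz => (gd z hz).1, cl, iso, fun z hz L => ?_⟩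
  obtain ⟨k, a1, h⟩ := dB z hz
  have c1 := (a1 z (mem_ball_self r0)).continuousAt.tendsto
  rw [(h z (mem_ball_self r0)).1.2 hz] at c1
  have p : 0 < |L| + ‖b‖ + 1 := by positivity
  filter_upwards [iso z hz, mem_nhdsWithin_of_mem_nhds (ball_mem_nhds z r0),
    mem_nhdsWithin_of_mem_nhds (NormedAddGroup.tendsto_nhds_zero.1 c1 _ (inv_pos.2 p))] with w w1 w2 w3
  have w4 : k w ≠ 0 := fun e => w1 ((h w w2).1.1 e)
  rw [((h w w2).2 w4).1]
  have w5 : |L| + ‖b‖ + 1 < ‖(k w)⁻¹‖ := by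
    rw [norm_inv]; exact (lt_inv_comm₀ p (norm_pos_iff.2 w4)).2 w3
  have w6 := norm_sub_le (b + (k w)⁻¹) b
  rw [add_sub_cancel_left] at w6
  linarith [le_abs_self L]

def ShF (f : ℂ → ℂ) (P : Set ℂ) (a : ℂ) : Prop :=
  ∀ ε > 0, ∃ δ > 0, ∃ R : ℝ, ∀ z, z ∉ P → R ≤ ‖z‖ →
    (‖f z - a‖ < δ → ‖deriv f z - a‖ ≤ ε) ∧ (‖deriv f z - a‖ < δ → ‖f z - a‖ ≤ ε)

lemma uni (hf : Mer f P) {a b : ℂ} (ha : ShF f P a) (hb : ShF f P b) (hab : a ≠ b) (b0 : b ≠ 0) :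
    ∃ δ > 0, δ ≤ ‖b‖ / 4 ∧ ∀ ε > 0, ∃ R : ℝ, ∀ z, z ∉ P → R ≤ ‖z‖ → ‖f z - b‖ ≤ δ →
      ∀ ζ : ℂ, ‖ζ‖ ≤ 10 → z + ζ ∉ P ∧ ‖f (z + ζ) - f z * exp ζ‖ ≤ ε ∧
        ‖f (z + ζ) - deriv f (z + ζ)‖ ≤ ε := by
  have b1 : 0 < ‖b‖ := norm_pos_iff.2 b0
  obtain ⟨δ0, hδ0, R0, h0⟩ := hb (‖b‖ / 2) (half_pos b1)
  refine ⟨min (δ0 / 2) (‖b‖ / 4), lt_min (half_pos hδ0) (by positivity), min_le_right _ _,
    fun ε hε => ?_⟩
  by_contra hn
  push Not at hn
  choose s s1 s2 s3 ζ s4 s5 using fun n : ℕ => hn n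
  obtain ⟨l, hl⟩ : ∃ l : Ultrafilter ℕ, (l : Filter ℕ) ≤ atTop := ⟨Ultrafilter.of atTop, Ultrafilter.of_le _⟩
  have hs : Tendsto (fun n => ‖s n‖) l atTop :=
    (tendsto_atTop_mono s2 tendsto_natCast_atTop_atTop).mono_left hl
  obtain ⟨r, hr⟩ : ∃ r, r = δ0 / (4 * (3 / 2 * ‖b‖)) := ⟨_, rfl⟩
  have r0 : 0 < r := by rw [hr]; positivity
  obtain ⟨g, Q, g1, g2, g3⟩ := lim hf (b := b) (R := R0 + 3 * r) hδ0 (show 0 < δ0 / 4 by positivity) r0
    (fun z0 hz => hf.disc (M := 3 / 2 * ‖b‖) (by positivity) r0 hδ0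
      (by rw [hr]; apply le_of_eq; field_simp) (fun w w1 w2 w3 => by
        linarith [(h0 w w1 w2).1 w3, norm_sub_norm_le (deriv f w) b]) hz) l hs
  have q0 : (0:ℂ) ∉ Q := fun h => by
    obtain ⟨n, hn⟩ := (g3 0 h (2 * ‖b‖)).exists
    rw [add_zero] at hn
    linarith [hn.resolve_left (s1 n), (s3 n).trans (min_le_right _ _), norm_sub_norm_le (f (s n)) b]
  have far : ∀ (z : ℂ) (R : ℝ), ∀ᶠ n in l, R ≤ ‖s n + z‖ := fun z R =>
    (hs.eventually_ge_atTop (R + ‖z‖)).mono fun n hn => by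
      have := norm_sub_le (s n + z) z
      rw [add_sub_cancel_right] at this
      linarith
  have sh : ∀ a, ShF f P a → Sh g Q a := by
    intro a ha ε hε
    obtain ⟨δ, hδ, R, h⟩ := ha ε hε
    refine ⟨δ, hδ, fun z hz => ?_⟩
    obtain ⟨c1, c2, c3⟩ := g1 z hz _ tendsto_const_nhds
    refine ⟨fun e => le_of_tendsto (c3.sub_const a).norm ?_, fun e => le_of_tendsto (c2.sub_const a).norm ?_⟩
    · filter_upwards [c1, far z R, (c2.sub_const a).norm.eventually (gt_mem_nhds e)] with n n1 n2 n3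
      exact (h _ n1 n2).1 n3
    · filter_upwards [c1, far z R, (c3.sub_const a).norm.eventually (gt_mem_nhds e)] with n n1 n2 n3
      exact (h _ n1 n2).2 n3
  obtain ⟨-, c2, c3⟩ := g1 0 q0 _ tendsto_const_nhds
  have d0 : deriv g 0 ≠ 0 := fun e => by
    have : ‖deriv g 0 - b‖ ≤ ‖b‖ / 2 := le_of_tendsto (c3.sub_const b).norm (by
      filter_upwards [far 0 R0] with n hn
      rw [add_zero] at hn ⊢
      exact (h0 _ (s1 n) hn).1 (by linarith [(s3 n).trans (min_le_left _ _)]))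
    rw [e, zero_sub, norm_neg] at this
    linarith
  obtain ⟨k1, k2, k3⟩ := cls (g2 ⟨0, q0⟩) q0 d0 (sh a ha) (sh b hb) hab b0
  obtain ⟨c, -, hc⟩ := (isCompact_closedBall (0 : ℂ) 10).ultrafilter_le_nhds (l.map ζ) (by
    rw [le_principal_iff]
    exact mem_map.2 (Eventually.of_forall fun k => by simpa using s4 k))
  have hc' : Tendsto ζ l (𝓝 c) := hc
  obtain ⟨e1, e2, e3⟩ := g1 c (k1 c) ζ hc'
  simp only [add_zero] at c2
  have e4 := (e2.sub (c2.mul hc'.cexp)).norm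
  have e5 := (e2.sub e3).norm
  rw [← k3, sub_self, norm_zero] at e4
  rw [k2, sub_self, norm_zero] at e5
  obtain ⟨n, n1, n2, n3⟩ := (e1.and ((e4.eventually (gt_mem_nhds hε)).and
    (e5.eventually (gt_mem_nhds hε)))).exists
  exact not_lt.2 n3.le (s5 n n1 n2.le)

end Pool.Agent.H.MP_35e7b7_an
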