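import Pool.Agent.H.MP_35e7b7_an.F
import Pool.Agent.H.MP_35e7b7_an.E

set_option autoImplicit false

namespace Pool.Agent.H.MP_35e7b7_an
open Filter Topology Metric Set Complex Bornology

variable {f : ℂ → ℂ} {P : Set ℂ}

lemma rat0 (E : Finset ℂ) : ∀ (h : ℂ → ℂ) (n : ℕ) (C R : ℝ), (∀ z, z ∉ E → AnalyticAt ℂ h z) →
    (∀ z ∈ E, MeromorphicAt h z) → (∀ z, R ≤ ‖z‖ → ‖h z‖ ≤ C * ‖z‖ ^ n) →
    ∃ p q : Polynomial ℂ, ∀ z, z ∉ E → q.eval z ≠ 0 ∧ h z * q.eval z = p.eval z := by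
  classical
  induction E using Finset.induction_on with
  | empty =>
    intro h n C R h1 _ h3
    obtain ⟨p, -, hp⟩ := pgr n h (fun z => (h1 z (by simp)).differentiableAt) C R h3
    exact ⟨p, 1, fun z _ => by simp [hp]⟩
  | insert e E he ih =>
    intro h n C R h1 h2 h3
    obtain ⟨m, hm⟩ := h2 e (by simp)
    obtain ⟨p, q, hp⟩ := ih (fun z => (z - e) ^ m • h z) (m + n) (2 ^ m * C) (max R ‖e‖)
      (fun z hz => by
        by_cases e' : z = e
        · rw [e']; exact hm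
        · exact ((analyticAt_id.sub analyticAt_const).pow m).smul (h1 z (by simp [e', hz])))
      (fun z hz => (((analyticAt_id.sub analyticAt_const).pow m).meromorphicAt).smul
        (h2 z (by simp [hz])))
      (fun z hz => by
        have a1 : ‖z - e‖ ≤ 2 * ‖z‖ := by linarith [norm_sub_le z e, le_of_max_le_right hz]
        rw [norm_smul, norm_pow]
        calc _ ≤ (2 * ‖z‖) ^ m * ‖h z‖ :=
              mul_le_mul_of_nonneg_right (pow_le_pow_left₀ (norm_nonneg _) a1 m) (norm_nonneg _)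
          _ ≤ (2 * ‖z‖) ^ m * (C * ‖z‖ ^ n) :=
              mul_le_mul_of_nonneg_left (h3 z (le_of_max_le_left hz)) (by positivity)
          _ = _ := by ring)
    refine ⟨p, (Polynomial.X - Polynomial.C e) ^ m * q, fun z hz => ?_⟩
    simp only [Finset.mem_insert, not_or] at hz
    obtain ⟨a1, a2⟩ := hp z hz.2
    simp only [Polynomial.eval_mul, Polynomial.eval_pow, Polynomial.eval_sub, Polynomial.eval_X,
      Polynomial.eval_C]
    refine ⟨mul_ne_zero (pow_ne_zero _ (sub_ne_zero.2 hz.1)) a1, ?_⟩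
    rw [← a2, smul_eq_mul]; ring

lemma rat (hf : Mer f P) {b : ℂ} {R δ : ℝ} (δ0 : 0 < δ)
    (h : ∀ z, z ∉ P → R ≤ ‖z‖ → δ ≤ ‖f z - b‖) :
    ∃ p q : Polynomial ℂ, q ≠ 0 ∧ ∀ z, q.eval z ≠ 0 → f z = p.eval z / q.eval z := by
  have hne : ∀ z, z ∉ P → R ≤ ‖z‖ → f z ≠ b := fun z h1 h2 e => by
    have := h z h1 h2
    rw [e, sub_self, norm_zero] at this
    linarith
  obtain ⟨z1, a1, a2⟩ : ∃ z1, z1 ∉ P ∧ R ≤ ‖z1‖ := by
    have : ∀ᶠ w : ℂ in 𝓝 ((|R| + 1 : ℝ) : ℂ), R < ‖w‖ :=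
      continuous_norm.continuousAt.eventually (lt_mem_nhds (by
        beta_reduce
        rw [norm_real, Real.norm_eq_abs, abs_of_pos (by positivity)]; linarith [le_abs_self R]))
    obtain ⟨w, w1, w2⟩ := ((hf.nb' _).and (this.filter_mono nhdsWithin_le_nhds)).exists
    exact ⟨w, w1, w2.le⟩
  have idn := hf.idn a1 (hne z1 a1 a2)
  have fin : {z | z ∉ P ∧ f z = b}.Finite := by
    by_contra hi
    obtain ⟨x, -, hx⟩ := Set.Infinite.exists_accPt_of_subset_isCompact hi (isCompact_closedBall 0 R)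
      (fun z hz => mem_closedBall_zero_iff.2 (not_lt.1 fun e => hne z hz.1 e.le hz.2))
    obtain ⟨w, w1, w2⟩ := ((accPt_iff_frequently_nhdsNE.1 hx).and_eventually (idn x)).exists
    exact w2.2 w1.2
  obtain ⟨p, q, hp⟩ := rat0 fin.toFinset (iv f P b) 0 δ⁻¹ R (fun z hz => hf.iv_an (by
      by_cases hP : z ∈ P
      · exact Or.inl hP
      · exact Or.inr fun e => hz (by simp [hP, e])))
    (fun z hz => by
      have hz' : z ∉ P := (fin.mem_toFinset.1 hz).1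
      exact (((hf.an z hz').sub analyticAt_const).meromorphicAt.inv).congr
        ((hf.iv_ev b hz').symm.filter_mono nhdsWithin_le_nhds))
    (fun z hz => by
      rw [pow_zero, mul_one]
      by_cases hP : z ∈ P
      · rw [iv_of_mem hP, norm_zero]; positivity
      · rw [iv_of_not hP, norm_inv]; exact inv_anti₀ δ0 (h z hP hz))
  have k1 : ∀ z, z ∉ P → f z ≠ b → p.eval z ≠ 0 ∧ f z = b + q.eval z / p.eval z := by
    intro z h1 h2
    obtain ⟨c1, c2⟩ := hp z (by simp [h2])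
    have c3 := sub_ne_zero.2 h2
    rw [iv_of_not h1] at c2
    rw [← c2]
    exact ⟨mul_ne_zero (inv_ne_zero c3) c1, by field_simp; ring⟩
  refine ⟨Polynomial.C b * p + q, p, fun e => (k1 z1 a1 (hne z1 a1 a2)).1 (by simp [e]), fun z hz => ?_⟩
  have hP : z ∉ P := fun hP => hz (by rw [← (hp z (by simp [hP])).2, iv_of_mem hP, zero_mul])
  have c1 : ContinuousAt (fun z => b + q.eval z / p.eval z) z :=
    continuousAt_const.add (q.continuous.continuousAt.div p.continuous.continuousAt hz)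
  have c2 := tendsto_nhds_unique
    ((hf.an z hP).continuousAt.tendsto.mono_left (nhdsWithin_le_nhds (s := {z}ᶜ)))
    ((c1.tendsto.mono_left (nhdsWithin_le_nhds (s := {z}ᶜ))).congr'
      ((idn z).mono fun w hw => (k1 w hw.1 hw.2).2.symm))
  rw [c2]
  simp only [Polynomial.eval_add, Polynomial.eval_mul, Polynomial.eval_C]
  field_simp

lemma key (hf : Mer f P) {a b : ℂ} (ha : ShF f P a) (hb : ShF f P b) (hab : a ≠ b) (b0 : b ≠ 0)
    (ht : ∀ R : ℝ, ∀ δ > 0, ∃ z, z ∉ P ∧ R ≤ ‖z‖ ∧ ‖f z - b‖ < δ) :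
    ∀ ε > 0, ∃ R : ℝ, ∀ z, z ∉ P → R ≤ ‖z‖ →
      ‖f z - deriv f z‖ ≤ ε * (1 + ‖f z - b‖ * ‖deriv f z - b‖) := by
  have b1 : 0 < ‖b‖ := norm_pos_iff.2 b0
  obtain ⟨δ, δ0, δ1, hu⟩ := uni hf ha hb hab b0
  obtain ⟨θ, θ0, R0, h0⟩ := hb (δ / 2) (half_pos δ0)
  have lo : ∀ z, z ∉ P → R0 ≤ ‖z‖ → δ ≤ ‖f z - b‖ → θ ≤ ‖deriv f z - b‖ := fun z h1 h2 h3 =>
    not_lt.1 fun e => by linarith [(h0 z h1 h2).2 e]
  obtain ⟨Ω, hΩ⟩ : ∃ Ω : Set ℂ, Ω = {z | z ∈ P ∨ δ < ‖f z - b‖} := ⟨_, rfl⟩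
  have mΩ : ∀ z, z ∈ Ω ↔ z ∈ P ∨ δ < ‖f z - b‖ := fun z => by rw [hΩ]; rfl
  have cn : ∀ z, z ∉ P → ContinuousAt (fun y => ‖f y - b‖) z := fun z hz => by
    have := (hf.an z hz).continuousAt
    fun_prop
  have Ωo : IsOpen Ω := by
    rw [isOpen_iff_mem_nhds]
    intro z hz
    by_cases hP : z ∈ P
    · filter_upwards [eventually_nhdsWithin_iff.1 (hf.far b hP (δ + 1))] with w hw
      rw [mΩ]
      by_cases e : w = z
      · exact Or.inl (e ▸ hP)
      · exact Or.inr (by linarith [(hw e).2])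
    · filter_upwards [(cn z hP).eventually (lt_mem_nhds (((mΩ z).1 hz).resolve_left hP))] with w hw
      exact (mΩ w).2 (Or.inr hw)
  have Ωc : ∀ z ∈ closure Ω, z ∉ P → δ ≤ ‖f z - b‖ := fun z hz hP => not_lt.1 fun e => by
    obtain ⟨w, w1, w2, w3⟩ := ((mem_closure_iff_frequently.1 hz).and_eventually
      ((hf.nb hP).and ((cn z hP).eventually (gt_mem_nhds e)))).exists
    linarith [((mΩ w).1 w1).resolve_left w2]
  obtain ⟨Ψ, hΨ⟩ : ∃ Ψ : ℂ → ℂ, Ψ = fun z => iv f P b z - iv (deriv f) P b z := ⟨_, rfl⟩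
  have nΨ : ∀ z, z ∉ P → R0 ≤ ‖z‖ → δ ≤ ‖f z - b‖ →
      ‖f z - deriv f z‖ = ‖Ψ z‖ * (‖f z - b‖ * ‖deriv f z - b‖) := by
    intro z h1 h2 h3
    have c1 : f z - b ≠ 0 := norm_pos_iff.1 (by linarith)
    have c2 : deriv f z - b ≠ 0 := norm_pos_iff.1 (by linarith [lo z h1 h2 h3])
    rw [← norm_mul, ← norm_mul, hΨ, norm_sub_rev]
    simp only [iv_of_not h1]
    congr 1
    field_simp
    ring
  have sm : ∀ ε > 0, ∀ z, z ∉ P → R0 ≤ ‖z‖ → δ ≤ ‖f z - b‖ → ‖f z - deriv f z‖ ≤ ε * (δ * θ) →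
      ‖Ψ z‖ ≤ ε := by
    intro ε hε z h1 h2 h3 h4
    rw [nΨ z h1 h2 h3] at h4
    refine le_of_mul_le_mul_right (le_trans ?_ h4) (mul_pos δ0 θ0)
    exact mul_le_mul_of_nonneg_left (mul_le_mul h3 (lo z h1 h2 h3) θ0.le (norm_nonneg _)) (norm_nonneg _)
  obtain ⟨R1, h1⟩ := hu δ δ0
  obtain ⟨w0, w1, w2, w3⟩ := ht (2 * R1) δ δ0
  obtain ⟨σ, σ1, σ2, σ3, σ4⟩ : ∃ σ : ℂ, ‖σ‖ = 1 ∧ σ * σ = 1 ∧ exp (σ * (2 * Real.pi * I)) = 1 ∧
      ‖w0‖ ≤ |(σ * w0).re| + (σ * w0).im := by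
    have := norm_le_abs_re_add_abs_im w0
    rcases le_total 0 w0.im with e | e
    · exact ⟨1, by simp, by simp, by simp, by simpa [abs_of_nonneg e] using this⟩
    · exact ⟨-1, by simp, by simp, by simp [exp_neg], by simpa [abs_of_nonpos e] using this⟩
  have nσ : ∀ z, ‖σ * z‖ = ‖z‖ := fun z => by rw [norm_mul, σ1, one_mul]
  obtain ⟨v, v0, v1⟩ : ∃ v : ℕ → ℂ, v 0 = σ * w0 ∧
      ∀ k, v (k + 1) = v k + (2 * Real.pi * I - σ * log (f (σ * v k) / b)) :=
    ⟨fun k => Nat.rec (σ * w0) (fun _ x => x + (2 * Real.pi * I - σ * log (f (σ * x) / b))) k,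
      rfl, fun _ => rfl⟩
  have lg : ∀ x : ℂ, ‖x - b‖ ≤ δ → x ≠ 0 ∧ ‖log (x / b)‖ ≤ 3 / 8 := by
    intro x hx
    have c1 : ‖(x - b) / b‖ ≤ 1 / 4 := by rw [norm_div, div_le_iff₀ b1]; linarith
    have c2 := norm_log_one_add_half_le_self (z := (x - b) / b) (by linarith)
    rw [show 1 + (x - b) / b = x / b by field_simp; ring] at c2
    refine ⟨?_, by linarith⟩
    rintro rfl
    rw [zero_sub, norm_neg] at hx
    linarith
  have inc : ∀ k, ‖f (σ * v k) - b‖ ≤ δ → 5 ≤ (v (k + 1)).im - (v k).im ∧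
      (v (k + 1)).im - (v k).im ≤ 7 ∧ |(v (k + 1)).re - (v k).re| ≤ 1 / 2 := by
    intro k hk
    have c1 := (lg _ hk).2
    rw [← nσ] at c1
    rw [v1]
    generalize σ * log (f (σ * v k) / b) = ℓ at *
    have c2 := abs_le.1 ((abs_im_le_norm ℓ).trans c1)
    have c3 := (abs_re_le_norm ℓ).trans c1
    simp only [add_im, sub_im, mul_im, mul_re, re_ofNat, ofReal_re, im_ofNat, ofReal_im, I_re, I_im,
      add_re, sub_re, mul_zero, sub_zero, mul_one, zero_mul, add_zero, add_sub_cancel_left, zero_sub,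
      abs_neg]
    exact ⟨by linarith [Real.pi_gt_three], by linarith [Real.pi_lt_d2], by linarith⟩
  have inv : ∀ k, σ * v k ∉ P ∧ ‖f (σ * v k) - b‖ ≤ δ ∧ 2 * R1 ≤ |(v k).re| + (v k).im := by
    intro k
    induction k with
    | zero => rw [v0, ← mul_assoc, σ2, one_mul]; exact ⟨w1, w3.le, w2.trans σ4⟩
    | succ k ih =>
      obtain ⟨c1, c2, c3⟩ := ih
      obtain ⟨d1, d2, d3⟩ := inc k c2
      obtain ⟨e1, e2⟩ := lg _ c2
      have e3 : σ * v (k + 1) = σ * v k + (σ * (2 * Real.pi * I) - log (f (σ * v k) / b)) := by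
        rw [v1]; linear_combination (-log (f (σ * v k) / b)) * σ2
      obtain ⟨f1, f2, -⟩ := h1 _ c1 (by
        rw [nσ]; linarith [abs_re_le_norm (v k), im_le_norm (v k)]) c2
        (σ * (2 * Real.pi * I) - log (f (σ * v k) / b)) (by
          refine (norm_sub_le _ _).trans ?_
          rw [nσ]
          simp only [norm_mul, norm_ofNat, norm_real, Real.norm_eq_abs, norm_I, abs_of_pos Real.pi_pos]
          linarith [Real.pi_lt_d2])
      rw [exp_sub, σ3, exp_log (div_ne_zero e1 b0),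
        show f (σ * v k) * (1 / (f (σ * v k) / b)) = b by field_simp] at f2
      rw [e3]
      refine ⟨f1, f2, ?_⟩
      linarith [abs_sub_abs_le_abs_sub (v k).re (v (k + 1)).re, abs_sub_comm (v k).re (v (k + 1)).re]
  have gro : ∀ k : ℕ, (v 0).im + 5 * k ≤ (v k).im := by
    intro k
    induction k with
    | zero => simp
    | succ k ih => push_cast; linarith [(inc k (inv k).2.1).1]
  have cσ : Continuous fun z : ℂ => σ * z := by fun_prop
  have main := lind (Ψ := fun z => Ψ (σ * z)) (Ω := (fun z => σ * z) ⁻¹' Ω) (Ωo.preimage cσ)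
    (R0 := R0) (M0 := δ⁻¹ + θ⁻¹) (w := v) (fun z hz hR => by
      have c1 : σ * z ∈ closure Ω := cσ.closure_preimage_subset Ω hz
      rw [← nσ] at hR
      rw [hΨ]
      by_cases hP : σ * z ∈ P
      · refine ⟨((hf.iv_an (Or.inl hP)).sub (hf.der.iv_an (Or.inl hP))).differentiableAt.comp z
          (by fun_prop), ?_⟩
        simp only [iv_of_mem hP, sub_self, norm_zero]
        positivity
      · have c2 := Ωc _ c1 hP
        have c3 := lo _ hP hR c2
        refine ⟨((hf.iv_an (Or.inr (sub_ne_zero.1 (norm_pos_iff.1 (by linarith))))).sub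
          (hf.der.iv_an (Or.inr (sub_ne_zero.1 (norm_pos_iff.1 (by linarith)))))).differentiableAt.comp z
          (by fun_prop), (norm_sub_le _ _).trans ?_⟩
        rw [iv_of_not hP, iv_of_not hP, norm_inv, norm_inv]
        exact add_le_add (inv_anti₀ δ0 c2) (inv_anti₀ θ0 c3))
    (fun ε hε => by
      obtain ⟨R2, h2⟩ := hu (ε * (δ * θ)) (by positivity)
      refine ⟨max R0 R2, fun z hz hn hR => ?_⟩
      have c1 : σ * z ∈ closure Ω := cσ.closure_preimage_subset Ω hz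
      have c2 : ¬(σ * z ∈ P ∨ δ < ‖f (σ * z) - b‖) := fun h => hn ((mΩ _).2 h)
      push Not at c2
      rw [← nσ] at hR
      have := (h2 _ c2.1 (le_of_max_le_right hR) c2.2 0 (by simp)).2.2
      rw [add_zero] at this
      exact sm ε hε _ c2.1 (le_of_max_le_left hR) (Ωc _ c1 c2.1) this)
    (fun k => inc k (inv k).2.1) (fun ε hε => by
      obtain ⟨R2, h2⟩ := hu (ε * (δ * θ)) (by positivity)
      obtain ⟨K, hK⟩ := exists_nat_ge (|R0| + |R2| + 10 + |(v 0).im|)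
      refine ⟨K, fun k hk z hz hd => ?_⟩
      have c1 : σ * z ∈ closure Ω := cσ.closure_preimage_subset Ω hz
      have c2 : (K:ℝ) ≤ k := by exact_mod_cast hk
      have c3 : |R0| + |R2| + 10 ≤ ‖v k‖ := by
        linarith [gro k, im_le_norm (v k), neg_abs_le (v 0).im, k.cast_nonneg (α := ℝ)]
      obtain ⟨d1, -, d2⟩ := h2 _ (inv k).1 (by rw [nσ]; linarith [le_abs_self R2, abs_nonneg R0])
        (inv k).2.1 (σ * (z - v k)) (by rwa [nσ])
      rw [show σ * v k + σ * (z - v k) = σ * z by ring] at d1 d2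
      refine sm ε hε _ d1 ?_ (Ωc _ c1 d1) d2
      have := norm_sub_norm_le (v k) z
      rw [norm_sub_rev] at this
      rw [nσ]
      linarith [le_abs_self R0, abs_nonneg R2])
  intro ε hε
  obtain ⟨R2, h2⟩ := hu ε hε
  obtain ⟨R3, h3⟩ := main ε hε
  refine ⟨max R0 (max R2 R3), fun z hz hR => ?_⟩
  have p0 : 0 ≤ ‖f z - b‖ * ‖deriv f z - b‖ := by positivity
  by_cases e : ‖f z - b‖ ≤ δ
  · have := (h2 z hz (le_of_max_le_left (le_of_max_le_right hR)) e 0 (by simp)).2.2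
    rw [add_zero] at this
    nlinarith
  · have e1 : σ * (σ * z) = z := by rw [← mul_assoc, σ2, one_mul]
    have := h3 (σ * z) (subset_closure (by
      rw [mem_preimage, e1, mΩ]; exact Or.inr (not_le.1 e))) (by
      rw [nσ]; exact le_of_max_le_right (le_of_max_le_right hR))
    rw [e1] at this
    rw [nΨ z hz (le_of_max_le_left hR) (not_le.1 e).le]
    nlinarith

open Classical in
noncomputable def sp (P : Set ℂ) (u : ℂ → ℂ) (z : ℂ) : OnePoint ℂ :=
  if z ∈ P then OnePoint.infty else (u z : OnePoint ℂ)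

lemma sp_fin {u : ℂ → ℂ} {z : ℕ → ℂ} {c : ℂ} :
    Tendsto (fun n => sp P u (z n)) atTop (𝓝 (c : OnePoint ℂ)) ↔
      (∀ᶠ n in atTop, z n ∉ P) ∧ Tendsto (fun n => u (z n)) atTop (𝓝 c) := by
  have e : (∀ᶠ n in atTop, z n ∉ P) →
      (fun n => sp P u (z n)) =ᶠ[atTop] (fun x : ℂ => (x : OnePoint ℂ)) ∘ fun n => u (z n) :=
    fun h => h.mono fun n hn => by simp [sp, hn]
  have t := OnePoint.isOpenEmbedding_coe.isEmbedding.tendsto_nhds_iff (f := fun n => u (z n))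
    (l := atTop) (y := c)
  constructor
  · intro h
    have h1 : ∀ᶠ n in atTop, z n ∉ P :=
      (h.eventually_ne (OnePoint.coe_ne_infty c)).mono fun n hn hP => hn (by simp [sp, hP])
    exact ⟨h1, t.2 (h.congr' (e h1))⟩
  · rintro ⟨h1, h2⟩
    exact (t.1 h2).congr' (e h1).symm

lemma sp_inf {u : ℂ → ℂ} {z : ℕ → ℂ} :
    Tendsto (fun n => sp P u (z n)) atTop (𝓝 OnePoint.infty) ↔
      ∀ L, ∀ᶠ n in atTop, z n ∈ P ∨ L < ‖u (z n)‖ := by
  rw [OnePoint.hasBasis_nhds_infty.tendsto_right_iff]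
  constructor
  · intro h L
    filter_upwards [h (closedBall 0 L) ⟨isClosed_closedBall, isCompact_closedBall 0 L⟩] with n hn
    refine or_iff_not_imp_left.2 fun hP => ?_
    simpa [sp, hP] using hn
  · rintro h K ⟨-, hK⟩
    obtain ⟨L, hL⟩ := hK.isBounded.exists_norm_le
    filter_upwards [h L] with n hn
    by_cases hP : z n ∈ P
    · simp [sp, hP]
    · simp only [sp, hP, if_false]
      exact Or.inl ⟨_, fun hk => not_lt.2 (hL _ hk) (hn.resolve_left hP), rfl⟩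

lemma dir {u v : ℂ → ℂ} {a : ℂ} (h : ∀ z : ℕ → ℂ, Tendsto z atTop (cocompact ℂ) →
    Tendsto (fun n => sp P u (z n)) atTop (𝓝 (a : OnePoint ℂ)) →
    Tendsto (fun n => sp P v (z n)) atTop (𝓝 (a : OnePoint ℂ))) :
    ∀ ε > 0, ∃ δ > 0, ∃ R : ℝ, ∀ z, z ∉ P → R ≤ ‖z‖ → ‖u z - a‖ < δ → ‖v z - a‖ ≤ ε := by
  intro ε hε
  by_contra hn
  push Not at hn
  choose z z1 z2 z3 z4 using fun n : ℕ => hn (1 / ((n:ℝ) + 1)) (by positivity) n
  have := (sp_fin.1 (h z (by
    rw [← cobounded_eq_cocompact, ← tendsto_norm_atTop_iff_cobounded]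
    exact tendsto_atTop_mono z2 tendsto_natCast_atTop_atTop) (sp_fin.2 ⟨Eventually.of_forall z1, by
      rw [tendsto_iff_norm_sub_tendsto_zero]
      exact squeeze_zero (fun _ => norm_nonneg _) (fun n => (z3 n).le)
        tendsto_one_div_add_atTop_nhds_zero_nat⟩))).2
  obtain ⟨n, hn⟩ := ((tendsto_iff_norm_sub_tendsto_zero.1 this).eventually (gt_mem_nhds hε)).exists
  linarith [z4 n]

lemma back {u v : ℂ → ℂ} {b : ℂ} (h : ∀ ε > 0, ∃ R : ℝ, ∀ z, z ∉ P → R ≤ ‖z‖ →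
    ‖u z - v z‖ ≤ ε * (1 + ‖u z - b‖ * ‖v z - b‖)) {z : ℕ → ℂ} (hz : Tendsto z atTop (cocompact ℂ))
    (c : OnePoint ℂ) (hc : Tendsto (fun n => sp P u (z n)) atTop (𝓝 c)) :
    Tendsto (fun n => sp P v (z n)) atTop (𝓝 c) := by
  rw [← cobounded_eq_cocompact, ← tendsto_norm_atTop_iff_cobounded] at hz
  have bd : ∀ x y : ℂ, ∀ ε A : ℝ, 0 < ε → ε * A ≤ 1 / 2 → ε ≤ 1 → ‖x - b‖ ≤ A →
      ‖x - y‖ ≤ ε * (1 + ‖x - b‖ * ‖y - b‖) → ‖y - b‖ ≤ 2 * (A + 1) := by
    intro x y ε A e0 e1 e2 h1 h2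
    have a1 := norm_sub_le_norm_sub_add_norm_sub y x b
    rw [norm_sub_rev y x] at a1
    have a2 : ε * (‖x - b‖ * ‖y - b‖) ≤ 1 / 2 * ‖y - b‖ := by
      rw [← mul_assoc]
      exact mul_le_mul_of_nonneg_right ((mul_le_mul_of_nonneg_left h1 e0.le).trans e1) (norm_nonneg _)
    linarith
  have sm : ∀ A : ℝ, 0 ≤ A → ∀ η > 0, ∃ ε > 0, ε * A ≤ 1 / 2 ∧ ε ≤ 1 ∧ ε * (1 + A * (2 * (A + 1))) ≤ η := by
    intro A hA η hη
    have t : ∀ B : ℝ, Tendsto (fun ε : ℝ => ε * B) (𝓝[>] 0) (𝓝 0) := fun B => by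
      have : Continuous fun ε : ℝ => ε * B := by fun_prop
      simpa using (this.tendsto 0).mono_left (nhdsWithin_le_nhds (s := Ioi 0))
    obtain ⟨ε, e0, e1, e2, e3⟩ := (eventually_mem_nhdsWithin.and
      (((t A).eventually (ge_mem_nhds (show (0:ℝ) < 1 / 2 by norm_num))).and
      (((t 1).eventually (ge_mem_nhds one_pos)).and ((t _).eventually (ge_mem_nhds hη))))).exists
    exact ⟨ε, e0, e1, by simpa using e2, e3⟩
  induction c using OnePoint.rec with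
  | infty =>
    rw [sp_inf] at hc ⊢
    intro L
    obtain ⟨ε, e0, e1, e2, -⟩ := sm (|L| + ‖b‖) (by positivity) 1 one_pos
    obtain ⟨R, hR⟩ := h ε e0
    filter_upwards [hc (2 * (|L| + ‖b‖ + 1) + ‖b‖), hz.eventually_ge_atTop R] with n n1 n2
    refine or_iff_not_imp_left.2 fun hP => not_le.1 fun hL => ?_
    have := bd (v (z n)) (u (z n)) ε _ e0 e1 e2
      (by linarith [norm_sub_le (v (z n)) b, le_abs_self L])
      (by rw [norm_sub_rev, mul_comm ‖v (z n) - b‖]; exact hR _ hP n2)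
    linarith [n1.resolve_left hP, norm_sub_norm_le (u (z n)) b]
  | coe c =>
    rw [sp_fin] at hc ⊢
    refine ⟨hc.1, ?_⟩
    have : Tendsto (fun n => u (z n) - v (z n)) atTop (𝓝 0) := by
      refine NormedAddGroup.tendsto_nhds_zero.2 fun η hη => ?_
      obtain ⟨ε, e0, e1, e2, e3⟩ := sm (‖c - b‖ + 1) (by positivity) (η / 2) (half_pos hη)
      obtain ⟨R, hR⟩ := h ε e0
      filter_upwards [hc.1, hz.eventually_ge_atTop R,
        (hc.2.sub_const b).norm.eventually (gt_mem_nhds (lt_add_one _))] with n n1 n2 n3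
      have a1 := hR _ n1 n2
      have a2 := bd _ _ ε _ e0 e1 e2 n3.le a1
      have a3 := mul_le_mul n3.le a2 (norm_nonneg _) (by positivity)
      nlinarith
    simpa using hc.2.sub this

lemma fin (hf : Mer f P) {a b : ℂ} (hab : a ≠ b) (b0 : b ≠ 0)
    (ht : ¬ ∃ p q : Polynomial ℂ, q ≠ 0 ∧ ∀ z, q.eval z ≠ 0 → f z = p.eval z / q.eval z)
    (hs : ∀ c : ℂ, c = a ∨ c = b → ∀ z : ℕ → ℂ, Tendsto z atTop (cocompact ℂ) →
      (Tendsto (fun n => sp P f (z n)) atTop (𝓝 (c : OnePoint ℂ)) ↔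
        Tendsto (fun n => sp P (deriv f) (z n)) atTop (𝓝 (c : OnePoint ℂ))))
    (c : OnePoint ℂ) (z : ℕ → ℂ) (hz : Tendsto z atTop (cocompact ℂ)) :
    Tendsto (fun n => sp P f (z n)) atTop (𝓝 c) ↔
      Tendsto (fun n => sp P (deriv f) (z n)) atTop (𝓝 c) := by
  have sh : ∀ c : ℂ, c = a ∨ c = b → ShF f P c := by
    intro c hc ε hε
    obtain ⟨δ1, d1, R1, h1⟩ := dir (fun z hz => (hs c hc z hz).1) ε hε
    obtain ⟨δ2, d2, R2, h2⟩ := dir (fun z hz => (hs c hc z hz).2) ε hε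
    exact ⟨min δ1 δ2, lt_min d1 d2, max R1 R2, fun z h3 h4 =>
      ⟨fun e => h1 z h3 (le_of_max_le_left h4) (e.trans_le (min_le_left _ _)),
        fun e => h2 z h3 (le_of_max_le_right h4) (e.trans_le (min_le_right _ _))⟩⟩
  have k := key hf (sh a (Or.inl rfl)) (sh b (Or.inr rfl)) hab b0 (fun R δ δ0 => by
    by_contra hn
    push Not at hn
    exact ht (rat hf δ0 hn))
  refine ⟨back k hz c, back (b := b) (fun ε hε => ?_) hz c⟩
  obtain ⟨R, hR⟩ := k ε hε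
  exact ⟨R, fun z h1 h2 => by rw [norm_sub_rev, mul_comm ‖deriv f z - b‖]; exact hR z h1 h2⟩

lemma mer (hf : MeromorphicNFOn f univ) : Mer f {z | meromorphicOrderAt f z < 0} ∧
    ∀ z, meromorphicOrderAt (deriv f) z < 0 ↔ meromorphicOrderAt f z < 0 := by
  have an : ∀ z, ¬ meromorphicOrderAt f z < 0 ↔ AnalyticAt ℂ f z := fun z => by
    rw [not_lt]; exact (hf (mem_univ z)).meromorphicOrderAt_nonneg_iff_analyticAt
  have M : Mer f {z | meromorphicOrderAt f z < 0} := by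
    refine ⟨fun z hz => (an z).1 hz, ?_, fun z _ => ?_, fun z hz L => ?_⟩
    · rw [← isOpen_compl_iff, isOpen_iff_mem_nhds]
      exact fun z hz => ((an z).1 hz).eventually_analyticAt.mono fun w hw => (an w).2 hw
    · exact (hf (mem_univ z)).meromorphicAt.eventually_analyticAt.mono fun w hw => (an w).2 hw
    · exact (tendsto_norm_atTop_iff_cobounded.2
        (tendsto_cobounded_of_meromorphicOrderAt_neg hz)).eventually_ge_atTop L
  refine ⟨M, fun z => ⟨fun h => ?_, fun h => ?_⟩⟩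
  · by_contra hn
    exact not_le.2 h ((an z).1 hn).deriv.meromorphicOrderAt_nonneg
  · rw [← tendsto_cobounded_iff_meromorphicOrderAt_neg (hf (mem_univ z)).meromorphicAt.deriv,
      ← tendsto_norm_atTop_iff_cobounded, Filter.tendsto_atTop]
    exact M.der.pole z h

end Pool.Agent.H.MP_35e7b7_an
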